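import Pool.Agent.PQ54.Defs

/-!
Basic facts about the Boolean completion of a preorder.
-/

set_option autoImplicit false

universe u

open Set

namespace Pool.Agent.PQ54

section
variable {P : Type u} [Preorder P]

theorem mem_compl_lower (L : LowerSet P) (p : P) : p ∈ Lᶜ ↔ ∀ s ≤ p, s ∉ L := by
  have h1 : p ∈ Lᶜ ↔ LowerSet.Iic p ≤ Lᶜ := by
    constructor
    · intro h s hs
      exact Lᶜ.lower (LowerSet.mem_Iic_iff.1 hs) h
    · intro h
      exact h (LowerSet.mem_Iic_iff.2 le_rfl)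
  rw [h1, le_compl_iff_disjoint_right]
  constructor
  · intro h s hs hL
    have h2 : LowerSet.Iic s ≤ ⊥ := h (by
      intro t ht
      exact LowerSet.mem_Iic_iff.2 ((LowerSet.mem_Iic_iff.1 ht).trans hs)) (by
      intro t ht
      exact L.lower (LowerSet.mem_Iic_iff.1 ht) hL)
    exact (h2 (LowerSet.mem_Iic_iff.2 (le_refl s))).elim
  · intro h M hM1 hM2 s hs
    exact (h s (LowerSet.mem_Iic_iff.1 (hM1 hs)) (hM2 hs)).elim

theorem emb_le_iff (p : P) (c : RO P) : emb p ≤ c ↔ p ∈ (c.1 : LowerSet P) := by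
  have hc : c.1ᶜᶜ = c.1 := c.2
  constructor
  · intro h
    have h1 : (LowerSet.Iic p)ᶜᶜ ≤ c.1 := h
    exact (le_compl_compl.trans h1) (LowerSet.mem_Iic_iff.2 le_rfl)
  · intro h
    change (LowerSet.Iic p)ᶜᶜ ≤ c.1
    have h2 : LowerSet.Iic p ≤ c.1 := by
      intro s hs
      exact c.1.lower (LowerSet.mem_Iic_iff.1 hs) h
    calc (LowerSet.Iic p)ᶜᶜ ≤ c.1ᶜᶜ := compl_le_compl (compl_le_compl h2)
      _ = c.1 := hc

theorem le_iff_emb (b c : RO P) : b ≤ c ↔ ∀ p, emb p ≤ b → emb p ≤ c := by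
  constructor
  · intro h p hp
    exact hp.trans h
  · intro h
    change b.1 ≤ c.1
    intro p hp
    exact (emb_le_iff p c).1 (h p ((emb_le_iff p b).2 hp))

theorem emb_le_compl (p : P) (c : RO P) : emb p ≤ cᶜ ↔ ∀ s ≤ p, ¬ emb s ≤ c := by
  rw [emb_le_iff]
  have h : ((cᶜ : RO P).1 : LowerSet P) = c.1ᶜ := rfl
  rw [h, mem_compl_lower]
  constructor
  · intro h s hs hs2
    exact h s hs ((emb_le_iff s c).1 hs2)
  · intro h s hs hs2
    exact h s hs ((emb_le_iff s c).2 hs2)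

theorem emb_mono {p q : P} (h : p ≤ q) : emb p ≤ emb q := by
  rw [emb_le_iff]
  have : emb q ≤ emb q := le_rfl
  rw [emb_le_iff] at this
  exact (emb q).1.lower h this

theorem emb_ne_bot (p : P) : emb p ≠ ⊥ := by
  intro h
  have h1 : emb p ≤ (emb p)ᶜ := by
    rw [h]; exact bot_le
  rw [emb_le_compl] at h1
  exact h1 p le_rfl le_rfl

theorem not_emb_le_bot (p : P) : ¬ emb p ≤ ⊥ := by
  intro h
  exact emb_ne_bot p (le_bot_iff.1 h)

theorem exists_emb_le {c : RO P} (h : c ≠ ⊥) : ∃ p, emb p ≤ c := by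
  by_contra hn
  push Not at hn
  refine h (le_bot_iff.1 ((le_iff_emb c ⊥).2 ?_))
  intro p hp
  exact (hn p hp).elim

theorem ne_bot_of_emb_le {p : P} {c : RO P} (h : emb p ≤ c) : c ≠ ⊥ := by
  rintro rfl
  exact not_emb_le_bot p h

theorem emb_inf_ne_bot_iff (p : P) (c : RO P) : emb p ⊓ c ≠ ⊥ ↔ ∃ s ≤ p, emb s ≤ c := by
  constructor
  · intro h
    by_contra hn
    push Not at hn
    have h1 : emb p ≤ cᶜ := (emb_le_compl p c).2 hn
    exact h (disjoint_iff.1 ((le_compl_iff_disjoint_right).1 h1))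
  · rintro ⟨s, hs, hc⟩ h
    have h1 : emb s ≤ emb p ⊓ c := le_inf (emb_mono hs) hc
    rw [h] at h1
    exact not_emb_le_bot s h1

theorem emb_le_sSup (p : P) (S : Set (RO P)) :
    emb p ≤ sSup S ↔ ∀ s ≤ p, ∃ t ≤ s, ∃ b ∈ S, emb t ≤ b := by
  constructor
  · intro h s hs
    by_contra hn
    push Not at hn
    have h1 : ∀ b ∈ S, b ≤ (emb s)ᶜ := by
      intro b hb
      have h2 : emb s ≤ bᶜ := (emb_le_compl s b).2 fun t ht => hn t ht b hb
      exact le_compl_comm.1 h2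
    have h3 : emb s ≤ (emb s)ᶜ := ((emb_mono hs).trans h).trans (sSup_le h1)
    exact (emb_le_compl s (emb s)).1 h3 s le_rfl le_rfl
  · intro h
    have h1 : emb p ≤ ((sSup S)ᶜ)ᶜ := by
      rw [emb_le_compl]
      intro s hs hs2
      obtain ⟨t, ht, b, hb, htb⟩ := h s hs
      have h3 : emb t ≤ sSup S ⊓ (sSup S)ᶜ :=
        le_inf (htb.trans (le_sSup hb)) ((emb_mono ht).trans hs2)
      rw [inf_compl_eq_bot] at h3
      exact not_emb_le_bot t h3
    rwa [compl_compl] at h1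

theorem emb_le_iSup {ι : Type*} (p : P) (b : ι → RO P) :
    emb p ≤ ⨆ i, b i ↔ ∀ s ≤ p, ∃ t ≤ s, ∃ i, emb t ≤ b i := by
  rw [iSup, emb_le_sSup]
  constructor
  · intro h s hs
    obtain ⟨t, ht, _, ⟨i, rfl⟩, h1⟩ := h s hs
    exact ⟨t, ht, i, h1⟩
  · intro h s hs
    obtain ⟨t, ht, i, h1⟩ := h s hs
    exact ⟨t, ht, _, ⟨i, rfl⟩, h1⟩

theorem inf_ne_bot_iff (b c : RO P) : b ⊓ c ≠ ⊥ ↔ ∃ p, emb p ≤ b ∧ emb p ≤ c := by
  constructor
  · intro h
    obtain ⟨p, hp⟩ := exists_emb_le h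
    exact ⟨p, hp.trans inf_le_left, hp.trans inf_le_right⟩
  · rintro ⟨p, h1, h2⟩
    exact ne_bot_of_emb_le (le_inf h1 h2)

theorem emb_inf_emb (p q : P) : emb p ⊓ emb q = sSup {b | ∃ s, s ≤ p ∧ s ≤ q ∧ b = emb s} := by
  apply le_antisymm
  · rw [le_iff_emb]
    intro s hs
    rw [emb_le_sSup]
    intro t ht
    have h1 : emb t ⊓ emb p ≠ ⊥ := by
      rw [inf_ne_bot_iff]
      exact ⟨t, le_rfl, (emb_mono ht).trans (hs.trans inf_le_left)⟩
    have h2 : ∃ t' ≤ t, t' ≤ p := by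
      rw [inf_comm, emb_inf_ne_bot_iff] at h1
      obtain ⟨s', hs', h3⟩ := h1
      have h4 : emb t ⊓ emb s' ≠ ⊥ := by
        rw [inf_ne_bot_iff]; exact ⟨s', h3, le_rfl⟩
      -- `emb s' ≤ emb t` gives a common lower bound
      have h5 : ¬ emb s' ≤ (emb t)ᶜ := by
        intro h6
        have : emb s' ≤ emb t ⊓ (emb t)ᶜ := le_inf h3 h6
        rw [inf_compl_eq_bot] at this
        exact not_emb_le_bot s' this
      have h7 : ¬ emb t ≤ (emb s')ᶜ := by
        intro h8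
        exact h5 (le_compl_comm.1 h8)
      by_contra hn
      push Not at hn
      apply h7
      have : (emb s') ≤ (LowerSet.Iic t |> Heyting.Regular.toRegular : RO P)ᶜ := by
        rw [emb_le_iff]
        change s' ∈ ((LowerSet.Iic t)ᶜᶜ)ᶜ
        rw [compl_compl_compl, mem_compl_lower]
        intro a ha hat
        exact hn a (LowerSet.mem_Iic_iff.1 hat) (ha.trans hs')
      exact le_compl_comm.1 this
    obtain ⟨t', ht', htp⟩ := h2
    have h1 : emb t' ⊓ emb q ≠ ⊥ := by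
      rw [inf_ne_bot_iff]
      exact ⟨t', le_rfl, (emb_mono (ht'.trans ht)).trans (hs.trans inf_le_right)⟩
    have h2 : ∃ a ≤ t', a ≤ q := by
      by_contra hn
      push Not at hn
      apply h1
      have : (emb q) ≤ (emb t')ᶜ := by
        rw [emb_le_iff]
        change q ∈ ((LowerSet.Iic t')ᶜᶜ)ᶜ
        rw [compl_compl_compl, mem_compl_lower]
        intro a ha hat
        exact hn a (LowerSet.mem_Iic_iff.1 hat) ha
      exact disjoint_iff.1 ((le_compl_iff_disjoint_right).1 (le_compl_comm.1 this))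
    obtain ⟨a, ha, haq⟩ := h2
    exact ⟨a, ha.trans ht', emb a, ⟨a, (ha.trans htp), haq, rfl⟩, le_rfl⟩
  · refine sSup_le ?_
    rintro _ ⟨s, h1, h2, rfl⟩
    exact le_inf (emb_mono h1) (emb_mono h2)

/-- Two conditions whose images meet are compatible. -/
theorem compat_of_inf_ne_bot {p q : P} (h : emb p ⊓ emb q ≠ ⊥) : ∃ s, s ≤ p ∧ s ≤ q := by
  by_contra hn
  apply h
  rw [emb_inf_emb]
  refine le_bot_iff.1 (sSup_le ?_)
  rintro _ ⟨s, h1, h2, rfl⟩
  exact (hn ⟨s, h1, h2⟩).elim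

/-! ### Complete subalgebras and `quotVal` -/

variable {Q : Set (RO P)}

theorem IsCompleteSubalgebra.sInf_mem {B : Type u} [CompleteBooleanAlgebra B] {Q : Set B}
    (hQ : IsCompleteSubalgebra Q) (S : Set B) (hS : S ⊆ Q) : sInf S ∈ Q := by
  have h1 : sInf S = (sSup (compl '' S))ᶜ := by
    rw [compl_sSup']
    congr 1
    ext b
    simp
  rw [h1]
  refine hQ.compl_mem _ (hQ.sSup_mem _ ?_)
  rintro _ ⟨b, hb, rfl⟩
  exact hQ.compl_mem b (hS hb)

theorem IsCompleteSubalgebra.inf_mem {B : Type u} [CompleteBooleanAlgebra B] {Q : Set B}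
    (hQ : IsCompleteSubalgebra Q) {a b : B} (ha : a ∈ Q) (hb : b ∈ Q) : a ⊓ b ∈ Q := by
  have h := hQ.sInf_mem {a, b} (by
    rintro x (rfl | rfl)
    · exact ha
    · exact hb)
  rwa [sInf_pair] at h

theorem IsCompleteSubalgebra.sup_mem {B : Type u} [CompleteBooleanAlgebra B] {Q : Set B}
    (hQ : IsCompleteSubalgebra Q) {a b : B} (ha : a ∈ Q) (hb : b ∈ Q) : a ⊔ b ∈ Q := by
  have h := hQ.sSup_mem {a, b} (by
    rintro x (rfl | rfl)
    · exact ha
    · exact hb)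
  rwa [sSup_pair] at h

theorem quotVal_mem (hQ : IsCompleteSubalgebra Q) (p : P) : quotVal Q p ∈ Q :=
  hQ.sInf_mem _ fun _ h => h.1

theorem emb_le_quotVal (p : P) : emb p ≤ quotVal Q p := le_sInf fun _ h => h.2

theorem quotVal_le {p : P} {q : RO P} (hq : q ∈ Q) (h : emb p ≤ q) : quotVal Q p ≤ q :=
  sInf_le ⟨hq, h⟩

theorem quotVal_mono {p q : P} (h : p ≤ q) : quotVal Q p ≤ quotVal Q q := by
  refine le_sInf ?_
  rintro b ⟨hb, hb2⟩
  exact sInf_le ⟨hb, (emb_mono h).trans hb2⟩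

/-- `b ⊓ quotVal Q p = ⊥` iff `b ⊓ emb p = ⊥`, for `b` in `Q`. -/
theorem inf_quotVal_eq_bot_iff (hQ : IsCompleteSubalgebra Q) {b : RO P} (hb : b ∈ Q) (p : P) :
    b ⊓ quotVal Q p = ⊥ ↔ b ⊓ emb p = ⊥ := by
  constructor
  · intro h
    exact le_bot_iff.1 (h ▸ inf_le_inf_left b (emb_le_quotVal p))
  · intro h
    have h1 : emb p ≤ bᶜ := le_compl_iff_disjoint_left.2 (disjoint_iff.2 h)
    have h2 : quotVal Q p ≤ bᶜ := quotVal_le (hQ.compl_mem b hb) h1
    exact disjoint_iff.1 (le_compl_iff_disjoint_left.1 h2)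

end

end Pool.Agent.PQ54
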