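import Pool.Agent.PQ54.Stmts
import Pool.Agent.PQ54.ROlib

/-!
Modules CC and VH.
-/

set_option autoImplicit false

universe u

open Cardinal Set

namespace Pool.Agent.PQ54.CCVH

theorem cc : CC_Stmt.{u} := by
  classical
  intro X r U m hm c hc
  have h1 : ∀ i, ∃ p : Cond r U, emb p ≤ c i := fun i => exists_emb_le (hc i)
  choose p hp using h1
  have h2 : ∃ i j, i ≠ j ∧ (p i).stem = (p j).stem := by
    by_contra hno
    push Not at hno
    have hinj : Function.Injective (fun i => (p i).stem) := by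
      intro i j h
      by_contra hij
      exact hno i j hij h
    have h3 := mk_le_of_injective hinj
    rw [mk_toType, card_ord] at h3
    exact absurd hm (not_lt.2 h3)
  obtain ⟨i, j, hij, hs⟩ := h2
  refine ⟨i, j, hij, ?_⟩
  set s : Cond r U :=
    { stem := (p i).stem
      meas := (p i).meas ∩ (p j).meas
      chain := (p i).chain
      mem := Filter.inter_mem (p i).mem (p j).mem
      above := fun x hx y hy => (p i).above x hx y hy.1 } with hsdef
  have h3 : s ≤ p i := ⟨[], by simp [hsdef], by simp, inter_subset_left⟩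
  have h4 : s ≤ p j := ⟨[], by simp [hsdef, hs], by simp, inter_subset_right⟩
  exact ne_bot_of_emb_le (le_inf ((emb_mono h3).trans (hp i)) ((emb_mono h4).trans (hp j)))

theorem vh : VH_Stmt.{u} := by
  classical
  intro P _ m hcc Q hQ
  rintro ⟨w, hw, hw0, τ, hτ⟩
  -- decide the values
  have h1 : ∀ i, ∃ p, w ⊓ τ i p ≠ ⊥ := by
    intro i
    by_contra hno
    push Not at hno
    apply hw0
    have h2 : w = w ⊓ ⨆ p, τ i p := (inf_eq_left.2 (hτ.total i)).symm
    rw [h2, inf_iSup_eq]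
    exact iSup_eq_bot.2 hno
  choose p hp using h1
  have h2 : ∀ i, w ⊓ τ i (p i) ⊓ emb (p i) ≠ ⊥ := by
    intro i h
    have hmem : w ⊓ τ i (p i) ∈ Q := hQ.inf_mem hw (hτ.name i (p i))
    have h3 := (inf_quotVal_eq_bot_iff hQ hmem (p i)).2 h
    rw [inf_eq_left.2 (hτ.quot i (p i))] at h3
    exact hp i h3
  obtain ⟨i, j, hij, h3⟩ := hcc (fun i => w ⊓ τ i (p i) ⊓ emb (p i)) h2
  obtain ⟨q, hq1, hq2⟩ := (inf_ne_bot_iff _ _).1 h3
  have hq3 : emb q ≤ emb (p i) ⊓ emb (p j) :=
    le_inf (hq1.trans inf_le_right) (hq2.trans inf_le_right)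
  rw [emb_inf_emb] at hq3
  obtain ⟨t, ht, b, ⟨s, hs1, hs2, rfl⟩, hts⟩ := (emb_le_sSup _ _).1 hq3 q le_rfl
  have h4 : emb t ≤ compatVal Q (p i) (p j) :=
    (hts.trans (emb_le_quotVal s)).trans (le_sSup ⟨s, hs1, hs2, rfl⟩)
  have h5 : emb t ≤ w ⊓ τ i (p i) ⊓ τ j (p j) ⊓ compatVal Q (p i) (p j) := by
    have e1 := (emb_mono ht).trans hq1
    have e2 := (emb_mono ht).trans hq2
    refine le_inf (le_inf (e1.trans inf_le_left) ?_) h4
    exact (e2.trans inf_le_left).trans inf_le_right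
  rw [hτ.incompat i j hij (p i) (p j)] at h5
  exact not_emb_le_bot t h5

end Pool.Agent.PQ54.CCVH
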