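import Pool.Agent.PQ54.Stmts

/-!
Modules EVD, PHI, CARD, GCHCARD.
-/

set_option autoImplicit false

universe u

open Cardinal Set

namespace Pool.Agent.PQ54.CARDM

section
variable {l : Cardinal.{u}}

theorem ov_lt_ov {a b : Below l} : ov a < ov b ↔ a < b := by
  unfold ov
  rw [Subtype.coe_lt_coe, OrderIso.lt_iff_lt]

theorem ov_inj {a b : Below l} (h : ov a = ov b) : a = b := by
  rcases lt_trichotomy a b with h1 | h1 | h1
  · exact absurd h (ov_lt_ov.2 h1).ne
  · exact h1
  · exact absurd h (ov_lt_ov.2 h1).ne'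

theorem mk_Iio_le (D : Below l) : #(Iio D) ≤ (ov D).card := by
  have h3 : #(Iio (ov D)) = Cardinal.lift.{u + 1} (ov D).card := Cardinal.mk_Iio_ordinal _
  have h5 := Cardinal.mk_le_of_injective (α := ULift.{u + 1} (Iio D)) (β := Iio (ov D))
    (f := fun b => (⟨ov b.down.1, ov_lt_ov.2 b.down.2⟩ : Iio (ov D)))
    (fun b b' h => by
      have h' : ov b.down.1 = ov b'.down.1 := by simpa using h
      exact ULift.ext _ _ (Subtype.ext (ov_inj h')))
  rwa [mk_uLift, h3, Cardinal.lift_le] at h5

theorem mk_Iio_lt (D : Below l) : #(Iio D) < l :=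
  (mk_Iio_le D).trans_lt (lt_ord.1 (mem_Iio.1 (Ordinal.ToType.toOrd D).2))

theorem mk_Iic_lt (hl : ℵ₀ ≤ l) (D : Below l) : #(Iic D) < l := by
  have h1 : Iic D = insert D (Iio D) := by
    ext x
    simp [le_iff_eq_or_lt]
  rw [h1]
  refine (mk_insert_le).trans_lt ?_
  exact add_lt_of_lt hl (mk_Iio_lt D) (one_lt_aleph0.trans_le hl)

theorem mk_below : #(Below l) = l := by
  rw [mk_toType, card_ord]

/-- small subsets are bounded -/
theorem bounded (hl : l.IsRegular) (S : Set (Below l)) (hS : #S < l) :
    ∃ a : Below l, ∀ s ∈ S, s < a := by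
  by_contra hno
  push Not at hno
  have h1 : IsCofinal S := by
    intro a
    obtain ⟨s, hs, h⟩ := hno a
    exact ⟨s, hs, h⟩
  have h2 := Order.cof_le h1
  rw [Ordinal.cof_toType, hl.cof_ord] at h2
  exact absurd hS (not_lt.2 h2)

end

/-! ### EVD -/

section evd

variable {k : Cardinal.{u}}

theorem mk_Iio_succ (r : Below (Order.succ k)) : #(Iio r) ≤ #(Below k) := by
  rw [mk_below]
  exact Order.lt_succ_iff.1 (mk_Iio_lt r)

/-- an injection of the initial segments into `κ` -/
noncomputable def ix (r : Below (Order.succ k)) : Iio r ↪ Below k :=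
  Classical.choice ((Cardinal.le_def _ _).1 (mk_Iio_succ r))

theorem exists_val (hk : ℵ₀ ≤ k) (r : Below (Order.succ k))
    (ih : ∀ r' : Below (Order.succ k), r' < r → Below k → Below k) (b : Below k) :
    ∃ v : Below k, ∀ (r' : Below (Order.succ k)) (h : r' < r), ix r ⟨r', h⟩ ≤ b → ih r' h b ≠ v := by
  by_contra hno
  push Not at hno
  choose g hg1 hg2 hg3 using hno
  have h1 : Function.Injective (fun v => (⟨ix r ⟨g v, hg1 v⟩, hg2 v⟩ : Iic b)) := by
    intro v v' h
    have h2 : ix r ⟨g v, hg1 v⟩ = ix r ⟨g v', hg1 v'⟩ := by simpa using h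
    have h3 : g v = g v' := congrArg Subtype.val ((ix r).injective h2)
    have h4 := hg3 v
    have h5 := hg3 v'
    have key : ∀ (x y : Below (Order.succ k)) (hx : x < r) (hy : y < r), x = y →
        ih x hx b = ih y hy b := by
      intro x y hx hy hxy
      subst hxy
      rfl
    rw [← h4, ← h5]
    exact key _ _ _ _ h3
  have h2 := mk_le_of_injective h1
  rw [mk_below] at h2
  exact absurd (mk_Iic_lt hk b) (not_lt.2 h2)

/-- the eventually different functions -/
noncomputable def evf (hk : ℵ₀ ≤ k) : Below (Order.succ k) → Below k → Below k :=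
  WellFounded.fix (wellFounded_lt (α := Below (Order.succ k)))
    (fun r ih b => Classical.choose (exists_val hk r ih b))

theorem evf_spec (hk : ℵ₀ ≤ k) (r r' : Below (Order.succ k)) (h : r' < r) (b : Below k)
    (hb : ix r ⟨r', h⟩ ≤ b) : evf hk r' b ≠ evf hk r b := by
  have h1 : evf hk r b = Classical.choose (exists_val hk r (fun y _ => evf hk y) b) := by
    unfold evf
    rw [WellFounded.fix_eq]
  rw [h1]
  exact Classical.choose_spec (exists_val hk r (fun y _ => evf hk y) b) r' h hb

theorem evd : EVD_Stmt.{u} := by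
  classical
  intro k hk
  have hne : Nonempty (Below k) := by
    rw [← mk_ne_zero_iff, mk_below]
    exact (aleph0_pos.trans_le hk).ne'
  refine ⟨evf hk, fun r r' => if h : r' < r then ix r ⟨r', h⟩ else
    if h : r < r' then ix r' ⟨r, h⟩ else Classical.choice hne, ?_⟩
  intro r r' hne b hb
  rcases lt_trichotomy r r' with h | h | h
  · beta_reduce at hb
    rw [dif_neg (not_lt.2 h.le), dif_pos h] at hb
    exact evf_spec hk r' r h b hb
  · exact absurd h hne
  · beta_reduce at hb
    rw [dif_pos h] at hb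
    exact (evf_spec hk r r' h b hb).symm

end evd

/-! ### PHI -/

theorem phi : PHI_Stmt.{u} := by
  classical
  intro k A T X hk hA hT hne hX
  have hreg : (Order.succ k).IsRegular := isRegular_succ hk
  have hcard : #(A × T) ≤ #(Below (Order.succ k)) := by
    rw [mk_prod, lift_id, lift_id, mk_below]
    calc #A * #T ≤ Order.succ k * Order.succ k := mul_le_mul' hA hT
      _ = Order.succ k := mul_eq_self (hk.trans (Order.le_succ k))
  obtain ⟨j⟩ := (Cardinal.le_def _ _).1 hcard
  -- choose the values by recursion on the code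
  have hex : ∀ (r : Below (Order.succ k)) (ih : ∀ r' : Below (Order.succ k), r' < r →
      Below (Order.succ k)) (t : T), ∃ η ∈ X t, ∀ (r' : Below (Order.succ k)) (h : r' < r),
      ih r' h < η := by
    intro r ih t
    obtain ⟨a, ha⟩ := bounded hreg (range (fun x : Iio r => ih x.1 x.2))
      (mk_range_le.trans_lt (mk_Iio_lt r))
    obtain ⟨b, hb, hab⟩ := hX t a
    exact ⟨b, hb, fun r' h => (ha _ ⟨⟨r', h⟩, rfl⟩).trans hab⟩
  set F : ∀ r : Below (Order.succ k), (∀ r' : Below (Order.succ k), r' < r →
      Below (Order.succ k)) → Below (Order.succ k) := fun r ih =>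
    if h : ∃ x : A × T, j x = r then Classical.choose (hex r ih h.choose.2) else r with hF
  have hexb : ∀ (r : Below (Order.succ k)) (ih : ∀ r' : Below (Order.succ k), r' < r →
      Below (Order.succ k)), (∃ x : A × T, j x = r) → ∀ (r' : Below (Order.succ k)) (h : r' < r),
      ih r' h < F r ih := by
    intro r ih hx r' h
    rw [hF]
    simp only
    rw [dif_pos hx]
    exact (Classical.choose_spec (hex r ih hx.choose.2)).2 r' h
  set η : Below (Order.succ k) → Below (Order.succ k) :=
    WellFounded.fix (wellFounded_lt (α := Below (Order.succ k))) F with hη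
  have hfix : ∀ r, η r = F r (fun y _ => η y) := by
    intro r
    rw [hη]
    exact WellFounded.fix_eq _ _ _
  have hmem : ∀ x : A × T, η (j x) ∈ X x.2 := by
    intro x
    rw [hfix, hF]
    simp only
    have hx : ∃ y : A × T, j y = j x := ⟨x, rfl⟩
    rw [dif_pos hx]
    have e : hx.choose = x := j.injective hx.choose_spec
    have := (Classical.choose_spec (hex (j x) (fun y _ => η y) hx.choose.2)).1
    rw [e] at this ⊢
    exact this
  have hlt : ∀ x y : A × T, j x < j y → η (j x) < η (j y) := by
    intro x y h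
    rw [hfix (j y)]
    exact hexb (j y) (fun y _ => η y) ⟨y, rfl⟩ (j x) h
  have hinj : ∀ x y : A × T, η (j x) = η (j y) → x = y := by
    intro x y h
    rcases lt_trichotomy (j x) (j y) with h1 | h1 | h1
    · exact absurd h (hlt x y h1).ne
    · exact j.injective h1
    · exact absurd h (hlt y x h1).ne'
  refine ⟨fun e => if h : ∃ x : A × T, η (j x) = e then h.choose.1 else Classical.choice hne, ?_⟩
  intro a t
  refine ⟨η (j (a, t)), hmem (a, t), ?_⟩
  have h : ∃ x : A × T, η (j x) = η (j (a, t)) := ⟨(a, t), rfl⟩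
  beta_reduce
  rw [dif_pos h]
  rw [hinj _ _ h.choose_spec]

/-! ### CARD -/

theorem card : CARD_Stmt.{u} := by
  intro k hk h2
  have hkk : k * k = k := mul_eq_self hk
  have hs : ℵ₀ ≤ Order.succ k := hk.trans (Order.le_succ k)
  refine ⟨?_, ?_, ?_⟩
  · have h1 : #(PK k (Order.succ k)) ≤ #{t : Set (Below (Order.succ k)) // #t ≤ k} :=
      mk_le_of_injective (f := fun x : PK k (Order.succ k) =>
        (⟨x.1, x.2.le⟩ : {t : Set (Below (Order.succ k)) // #t ≤ k}))
        (fun x y h => Subtype.ext (by simpa using h))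
    refine h1.trans ((mk_bounded_set_le _ _).trans ?_)
    rw [mk_below, max_eq_left hs, ← h2, ← power_mul, hkk]
  · rw [mk_arrow, lift_id, lift_id, mk_set, mk_prod, lift_id, mk_below, hkk, ← power_mul,
      hkk, h2]
  · intro D
    have h3 : #(Iio D) ≤ k := Order.lt_succ_iff.1 (mk_Iio_lt D)
    rw [mk_arrow, mk_bool, lift_two, lift_uzero]
    exact (power_le_power_left two_ne_zero h3).trans h2.le

/-! ### GCHCARD -/

theorem gchcard : GCHCARD_Stmt.{u} := by
  intro hgch k l hk hkl hl
  have hl0 : ℵ₀ ≤ l := hl.aleph0_le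
  -- each small set is contained in a proper initial segment
  have hb : ∀ x : PK k l, ∃ a : Below l, x.1 ⊆ Iio a := by
    intro x
    obtain ⟨a, ha⟩ := bounded hl x.1 (lt_trans x.2 hkl)
    exact ⟨a, fun s hs => ha s hs⟩
  choose g hg using hb
  have h1 : #(PK k l) ≤ #(Σ a : Below l, Set (Iio a)) := by
    refine mk_le_of_injective (f := fun x => (⟨g x, Subtype.val ⁻¹' x.1⟩ :
      Σ a : Below l, Set (Iio a))) ?_
    intro x y h
    have e1 : g x = g y := congrArg Sigma.fst h
    have key : ∀ (a b : Below l) (s t : Set (Below l)), s ⊆ Iio a → t ⊆ Iio b → a = b →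
        (⟨a, Subtype.val ⁻¹' s⟩ : Σ a : Below l, Set (Iio a)) = ⟨b, Subtype.val ⁻¹' t⟩ →
        s = t := by
      intro a b s t hs ht hab h
      subst hab
      have h' : (Subtype.val ⁻¹' s : Set (Iio a)) = Subtype.val ⁻¹' t := by
        simpa using h
      ext z
      constructor
      · intro hz
        have : (⟨z, hs hz⟩ : Iio a) ∈ (Subtype.val ⁻¹' s : Set (Iio a)) := hz
        rw [h'] at this
        exact this
      · intro hz
        have : (⟨z, ht hz⟩ : Iio a) ∈ (Subtype.val ⁻¹' t : Set (Iio a)) := hz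
        rw [← h'] at this
        exact this
    exact Subtype.ext (key _ _ _ _ (hg x) (hg y) e1 h)
  have h2 : ∀ a : Below l, #(Set (Iio a)) ≤ l := by
    intro a
    rw [mk_set]
    rcases le_or_gt ℵ₀ #(Iio a) with h | h
    · rw [hgch _ h]
      exact Order.succ_le_of_lt (mk_Iio_lt a)
    · exact (power_lt_aleph0 (natCast_lt_aleph0) h).le.trans hl0
  have h3 : #(Σ a : Below l, Set (Iio a)) ≤ l := by
    rw [mk_sigma]
    refine (sum_le_mk_mul_iSup _).trans ?_
    rw [mk_below]
    calc l * ⨆ a : Below l, #(Set (Iio a)) ≤ l * l := by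
          gcongr
          exact ciSup_le' h2
      _ = l := mul_eq_self hl0
  refine (mk_list_le_max _).trans ?_
  exact max_le hl0 (h1.trans h3)

end Pool.Agent.PQ54.CARDM
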