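import Mathlib

/-!
# Quotients of the supercompact Prikry forcing

The definitions used in the statement about the chain condition of the quotients of the supercompact
Prikry forcing.
-/

set_option autoImplicit false

universe u

open Cardinal Set

namespace Pool.Agent.PQ54

/-- The generalized continuum hypothesis. -/
def GCH : Prop := ∀ m : Cardinal.{u}, ℵ₀ ≤ m → 2 ^ m = Order.succ m

/-- The set of the ordinals below the cardinal `l`. -/
abbrev Below (l : Cardinal.{u}) : Type u := l.ord.ToType

/-- The ordinal that an element of `Below l` stands for. -/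
noncomputable def ov {l : Cardinal.{u}} (a : Below l) : Ordinal.{u} :=
  (Ordinal.ToType.toOrd a).1

/-- `P_κ(λ)`: the subsets of `λ` of cardinality less than `κ`. -/
def PK (κ l : Cardinal.{u}) : Type u := {x : Set (Below l) // #x < κ}

/-- The order type of a set of ordinals. -/
noncomputable def otp {l : Cardinal.{u}} (x : Set (Below l)) : Ordinal.{u} :=
  Ordinal.type (fun a b : x => a < b)

/-- `x ≺ y`: `x ⊆ y`, the set `y ∩ κ` is an ordinal, and `otp x < y ∩ κ`, that is, the ordinal
`otp x` (which is less than `κ`) belongs to `y`. -/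
def Prec {κ l : Cardinal.{u}} (x y : PK κ l) : Prop :=
  x.1 ⊆ y.1 ∧ (∀ a ∈ y.1, ov a < κ.ord → ∀ b < a, b ∈ y.1) ∧ ∃ a ∈ y.1, ov a = otp x.1

/-- `U` is a fine normal measure on `P_κ(λ)` (`κ`-complete, fine and normal), `κ` uncountable. -/
structure IsNormalFine (κ l : Cardinal.{u}) (U : Ultrafilter (PK κ l)) : Prop where
  uncountable : ℵ₀ < κ
  complete : ∀ (ι : Type u) (s : ι → Set (PK κ l)), #ι < κ → (∀ i, s i ∈ U) → (⋂ i, s i) ∈ U
  fine : ∀ a : Below l, {x : PK κ l | a ∈ x.1} ∈ U
  normal : ∀ f : PK κ l → Below l, {x : PK κ l | f x ∈ x.1} ∈ U →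
    ∃ a, {x : PK κ l | f x = a} ∈ U

/-- The conditions of the Prikry forcing for the relation `r` and the ultrafilter `U`: a finite
sequence `x₁, …, xₙ` with `x₁ r x₂ r … r xₙ` and a set `A ∈ U` with `xₙ r y` for all `y ∈ A`.
The supercompact Prikry forcing `P_U` is `Cond Prec U`. -/
structure Cond {X : Type u} (r : X → X → Prop) (U : Ultrafilter X) : Type u where
  stem : List X
  meas : Set X
  chain : stem.IsChain r
  mem : meas ∈ U
  above : ∀ x ∈ stem.getLast?, ∀ y ∈ meas, r x y

/-- `q ≤ p`: the stem of `q` extends the stem of `p` by elements of the measure one set of `p`, and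
the measure one set of `q` is contained in the one of `p`. -/
instance {X : Type u} (r : X → X → Prop) (U : Ultrafilter X) : Preorder (Cond r U) where
  le q p := ∃ t : List X, q.stem = p.stem ++ t ∧ (∀ y ∈ t, y ∈ p.meas) ∧ q.meas ⊆ p.meas
  le_refl p := ⟨[], by simp, by simp, subset_rfl⟩
  le_trans := by
    rintro p q s ⟨t, h1, h2, h3⟩ ⟨t', h1', h2', h3'⟩
    refine ⟨t' ++ t, by rw [h1, h1', List.append_assoc], ?_, h3.trans h3'⟩
    intro y hy
    rcases List.mem_append.mp hy with hy | hy
    · exact h2' y hy
    · exact h3' (h2 y hy)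

/-- The Boolean completion of `P`: the complete Boolean algebra of the regular elements of the
Heyting algebra of the lower sets of `P` (the regular open sets for the topology of lower sets). -/
def RO (P : Type u) [Preorder P] : Type u := Heyting.Regular (LowerSet P)

noncomputable instance (P : Type u) [Preorder P] : CompleteBooleanAlgebra (RO P) :=
  { (inferInstance : BooleanAlgebra (Heyting.Regular (LowerSet P))),
    (Heyting.Regular.gi (α := LowerSet P)).liftCompleteLattice with }

/-- The canonical map of `P` into its Boolean completion. -/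
def emb {P : Type u} [Preorder P] (p : P) : RO P := Heyting.Regular.toRegular (LowerSet.Iic p)

/-- A complete subalgebra. -/
structure IsCompleteSubalgebra {B : Type u} [CompleteBooleanAlgebra B] (Q : Set B) : Prop where
  compl_mem : ∀ q ∈ Q, qᶜ ∈ Q
  sSup_mem : ∀ S ⊆ Q, sSup S ∈ Q

section Quotient

variable {P : Type u} [Preorder P]

/-- The truth value of `p ∈ P/H`, where `H = G ∩ Q`: that `p` is compatible with all the
elements of `H`, or that `H` contains all the elements of `Q` above `p`. -/
noncomputable def quotVal (Q : Set (RO P)) (p : P) : RO P := sInf {q | q ∈ Q ∧ emb p ≤ q}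

/-- The truth value of the statement that `p` and `p'` are compatible in `P/H`: that there is a
common extension in `P/H`. -/
noncomputable def compatVal (Q : Set (RO P)) (p p' : P) : RO P :=
  sSup {b | ∃ s : P, s ≤ p ∧ s ≤ p' ∧ b = quotVal Q s}

/-- Let `Q` and `W` be complete subalgebras of the completion of `P`. Here `τ i p ∈ W` is the truth
value of `τ(i) = p` for a `W`-name `τ` of a function with domain `I` and values in `P`. The
condition `w` forces that `τ(i)`, `i ∈ I`, are pairwise incompatible elements of `P/H`. -/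
structure ForcesAntichain (Q W : Set (RO P)) (w : RO P) {I : Type u} (τ : I → P → RO P) :
    Prop where
  name : ∀ i p, τ i p ∈ W
  unique : ∀ i p p', p ≠ p' → τ i p ⊓ τ i p' = ⊥
  total : ∀ i, w ≤ ⨆ p, τ i p
  quot : ∀ i p, w ⊓ τ i p ≤ quotVal Q p
  incompat : ∀ i j, i ≠ j → ∀ p p', w ⊓ τ i p ⊓ τ j p' ⊓ compatVal Q p p' = ⊥

/-- The quotient `P/H`, `H = G ∩ Q`, satisfies the `m`-chain condition in `V[G ∩ W]`: no nonzero
element of `W` forces that a `W`-name is an antichain of `P/H` indexed by `m`. -/
def QuotientCC (Q W : Set (RO P)) (m : Cardinal.{u}) : Prop :=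
  ¬ ∃ w ∈ W, w ≠ ⊥ ∧ ∃ τ : Below m → P → RO P, ForcesAntichain Q W w τ

end Quotient

end Pool.Agent.PQ54
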