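import Pool.Agent.PQ54.Meas

/-!
Module RHO: the hidden function.
-/

set_option autoImplicit false

universe u

open Cardinal Set

namespace Pool.Agent.PQ54

open MeasAux

namespace RhoAux

variable {k : Cardinal.{u}} {U : Ultrafilter (PK k (Order.succ k))}

/-- A strict upper bound of a small set. -/
theorem exists_bound (hk : ℵ₀ ≤ k) (x : PK k (Order.succ k)) :
    ∃ s : Below (Order.succ k), ∀ a ∈ x.1, a < s := by
  by_contra hc
  push Not at hc
  have h1 : (⋃ a : x.1, Iic a.1) = (univ : Set (Below (Order.succ k))) := by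
    rw [eq_univ_iff_forall]
    intro s
    obtain ⟨a, ha, hs⟩ := hc s
    exact mem_iUnion.2 ⟨⟨a, ha⟩, hs⟩
  have h2 : #(⋃ a : x.1, Iic a.1 : Set (Below (Order.succ k))) ≤ k := by
    refine (mk_iUnion_le _).trans ?_
    have h3 : (⨆ a : x.1, #(Iic a.1)) ≤ k := by
      apply ciSup_le'
      intro a
      have h4 : (Iic a.1 : Set (Below (Order.succ k))) = insert a.1 (Iio a.1) := by
        ext c; simp [le_iff_eq_or_lt]
      rw [h4]
      refine (mk_insert_le).trans ?_
      exact add_le_of_le hk (Order.lt_succ_iff.1 (mk_Iio_lt' (ov_lt a.1)))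
        (one_le_aleph0.trans hk)
    exact (mul_le_mul' x.2.le h3).trans (mul_eq_self hk).le
  rw [h1, mk_univ, mk_below] at h2
  exact absurd h2 (not_le.2 (Order.lt_succ k))

/-- The set of indices `r` such that the graph of `f r` is in `S` almost everywhere. -/
def XS (U : Ultrafilter (PK k (Order.succ k))) (f : Below (Order.succ k) → Below k → Below k)
    (S : Set (Below k × Below k)) : Set (Below (Order.succ k)) :=
  {r | {w : PK k (Order.succ k) | (kap w, f r (kap w)) ∈ S} ∈ U}

/-- The ultrafilter on `κ × κ`. -/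
def TT (U : Ultrafilter (PK k (Order.succ k))) (f : Below (Order.succ k) → Below k → Below k)
    (s : PK k (Order.succ k) → Below (Order.succ k)) : Set (Set (Below k × Below k)) :=
  {S | {y | s y ∈ XS U f S} ∈ U}

theorem XS_iInter (h : IsNormalFine k (Order.succ k) U)
    (f : Below (Order.succ k) → Below k → Below k) {ι : Type u} (hι : #ι < k)
    (S : ι → Set (Below k × Below k)) (r : Below (Order.succ k)) (hr : ∀ i, r ∈ XS U f (S i)) :
    r ∈ XS U f (⋂ i, S i) := by
  refine Filter.mem_of_superset (h.complete ι _ hι hr) ?_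
  intro w hw
  show _ ∈ ⋂ i, S i
  rw [mem_iInter]
  intro i
  exact mem_iInter.1 hw i

theorem TT_iInter (h : IsNormalFine k (Order.succ k) U)
    (f : Below (Order.succ k) → Below k → Below k) (s : PK k (Order.succ k) → Below (Order.succ k))
    {ι : Type u} (hι : #ι < k) (S : ι → Set (Below k × Below k)) (hS : ∀ i, S i ∈ TT U f s) :
    (⋂ i, S i) ∈ TT U f s := by
  refine Filter.mem_of_superset (h.complete ι _ hι hS) ?_
  intro y hy
  exact XS_iInter h f hι S _ fun i => mem_iInter.1 hy i

theorem XS_mono (f : Below (Order.succ k) → Below k → Below k) {S S' : Set (Below k × Below k)}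
    (h : S ⊆ S') : XS U f S ⊆ XS U f S' :=
  fun _ hr => Filter.mem_of_superset hr fun _ hw => h hw

theorem TT_inter (f : Below (Order.succ k) → Below k → Below k)
    (s : PK k (Order.succ k) → Below (Order.succ k)) {S S' : Set (Below k × Below k)}
    (h : S ∈ TT U f s) (h' : S' ∈ TT U f s) : S ∩ S' ∈ TT U f s := by
  refine Filter.mem_of_superset (Filter.inter_mem h h') ?_
  rintro y ⟨h1, h2⟩
  refine Filter.mem_of_superset (Filter.inter_mem h1 h2) ?_
  rintro w ⟨h3, h4⟩
  exact ⟨h3, h4⟩

theorem TT_empty (f : Below (Order.succ k) → Below k → Below k)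
    (s : PK k (Order.succ k) → Below (Order.succ k)) : ∅ ∉ TT U f s := by
  intro h
  obtain ⟨y, hy⟩ := U.nonempty_of_mem h
  obtain ⟨w, hw⟩ := U.nonempty_of_mem hy
  exact hw

theorem TT_ultra (f : Below (Order.succ k) → Below k → Below k)
    (s : PK k (Order.succ k) → Below (Order.succ k)) (S : Set (Below k × Below k)) :
    S ∈ TT U f s ∨ Sᶜ ∈ TT U f s := by
  by_cases h : S ∈ TT U f s
  · exact Or.inl h
  · refine Or.inr (Filter.mem_of_superset (Ultrafilter.compl_mem_iff_notMem.2 h) ?_)
    intro y hy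
    exact Ultrafilter.compl_mem_iff_notMem.2 hy

theorem TT_univ (f : Below (Order.succ k) → Below k → Below k)
    (s : PK k (Order.succ k) → Below (Order.succ k)) :
    (Set.univ : Set (Below k × Below k)) ∈ TT U f s := by
  refine Filter.mem_of_superset Filter.univ_mem ?_
  intro y _
  exact Filter.mem_of_superset Filter.univ_mem fun _ _ => trivial

end RhoAux

open RhoAux

/-- Module RHO. -/
theorem RHO (hE : EVD_Stmt.{u}) (hP : PHI_Stmt.{u}) (hC : CARD_Stmt.{u}) : RHO_Stmt.{u} := by
  intro k U h2 h _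
  have hk : ℵ₀ ≤ k := h.uncountable.le
  obtain ⟨f, d, hfd⟩ := hE k hk
  obtain ⟨hc1, hc2, -⟩ := hC k hk h2
  choose s hs using exists_bound (k := k) hk
  obtain ⟨b0⟩ := nonempty_below h.uncountable
  obtain ⟨z0, -⟩ := U.nonempty_of_mem (Filter.univ_mem (f := (U : Filter (PK k (Order.succ k)))))
  -- the sets `X S` are unbounded
  have hX : ∀ t : TT U f s, ∀ a : Below (Order.succ k), ∃ b ∈ XS U f t.1, a < b := by
    intro t a
    obtain ⟨y, hy1, hy2⟩ := U.nonempty_of_mem (Filter.inter_mem t.2 (h.fine a))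
    exact ⟨s y, hy1, hs y a hy2⟩
  have hcT : #(TT U f s) ≤ Order.succ k := by
    refine le_trans ?_ hc2
    exact mk_le_of_injective (f := fun (t : TT U f s) (_ : Below k) => t.1) (fun t t' htt' =>
      Subtype.ext (congrFun htt' b0))
  obtain ⟨phi, hphi⟩ := hP k (PK k (Order.succ k)) (TT U f s) (fun t => XS U f t.1) hk hc1 hcT
    ⟨z0⟩ hX
  -- enumeration of the sequences
  have hcS : #(Below k → TT U f s) ≤ #(Below (Order.succ k)) := by
    rw [mk_below]
    refine le_trans ?_ hc2
    exact mk_le_of_injective (f := fun (t : Below k → TT U f s) (b : Below k) => (t b).1)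
      (fun t t' htt' => funext fun b => Subtype.ext (congrFun htt' b))
  obtain ⟨g⟩ := hcS
  have : Nonempty (Below k → TT U f s) := ⟨fun _ => ⟨Set.univ, TT_univ f s⟩⟩
  let seq : Below (Order.succ k) → Below k → TT U f s := Function.invFun g
  have hseq : Function.Surjective seq := Function.invFun_surjective g.injective
  let SX : PK k (Order.succ k) → Set (Below k × Below k) := fun x =>
    ⋂ ξ : x.1, (seq ξ.1 (kap x)).1
  have hSX : ∀ x, SX x ∈ TT U f s := fun x =>
    TT_iInter h f s x.2 _ fun ξ => (seq ξ.1 (kap x)).2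
  have hr : ∀ x : PK k (Order.succ k), ∃ η ∈ XS U f (SX x), phi η = x := fun x =>
    hphi x ⟨SX x, hSX x⟩
  choose rho hrho1 hrho2 using hr
  refine ⟨⟨f, d, rho, TT U f s, hfd, ?_, fun S hS S' hS' => TT_inter f s hS hS', TT_empty f s,
    TT_ultra f s, ?_⟩⟩
  · intro x x' hxx'
    rw [← hrho2 x, ← hrho2 x', hxx']
  · intro S hS
    obtain ⟨ξ, hξ⟩ := hseq (fun b => ⟨S b, hS b⟩)
    refine Filter.mem_of_superset (h.fine ξ) ?_
    intro z hz
    have h3 : SX z ⊆ S (kap z) := by
      intro e he
      have h4 := mem_iInter.1 he ⟨ξ, hz⟩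
      rw [hξ] at h4
      exact h4
    exact XS_mono f h3 (hrho1 z)

end Pool.Agent.PQ54
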