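import Pool.Agent.PQ54.Stmts
import Pool.Agent.PQ54.ROlib

/-!
Module VG: from an antichain of the product over `Q` to an antichain of the quotient in `V[G]`.
-/

set_option autoImplicit false

universe u

open Cardinal Set

namespace Pool.Agent.PQ54.VG

section Seq

variable {m : Cardinal.{u}}

/-- Fewer than `m` elements of the regular cardinal `m` are bounded. -/
theorem exists_bound (hm : m.IsRegular) (a : Below m) (g : Iio a → Below m) :
    ∃ b, ∀ x, g x < b := by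
  have h1 : ¬ IsCofinal (range g) := by
    intro h
    have h2 := Order.cof_le h
    rw [Ordinal.cof_toType, hm.cof_ord] at h2
    have h3 : #(range g) ≤ #(Iio a) := mk_range_le
    exact absurd (h2.trans h3) (not_le.2 (by
      have h4 := Cardinal.mk_Iio_lt a (by simp)
      rwa [mk_toType, card_ord] at h4))
  obtain ⟨b, hb⟩ := not_isCofinal_iff.1 h1
  exact ⟨b, fun x => hb _ ⟨x, rfl⟩⟩

theorem exists_seq (hm : m.IsRegular) (B : Below m → Below m) :
    ∃ ν : Below m → Below m, ∀ η ξ, η < ξ → B (ν η) < ν ξ := by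
  classical
  let wf : WellFounded (fun a b : Below m => a < b) := wellFounded_lt
  let F : ∀ ξ : Below m, (∀ η : Below m, η < ξ → Below m) → Below m := fun ξ rec =>
    Classical.choose (exists_bound hm ξ (fun η : Iio ξ => B (rec η.1 η.2)))
  refine ⟨wf.fix F, ?_⟩
  intro η ξ h
  have h1 : wf.fix F ξ = F ξ (fun y _ => wf.fix F y) := wf.fix_eq F ξ
  rw [h1]
  exact Classical.choose_spec
    (exists_bound hm ξ (fun η : Iio ξ => B (wf.fix F η.1))) ⟨η, h⟩

theorem exists_gt (hm : m.IsRegular) (a : Below m) : ∃ b, a < b := by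
  obtain ⟨ν, hν⟩ := exists_seq hm (fun _ => a)
  have h0 : Nontrivial (Below m) := by
    rw [← Cardinal.one_lt_iff_nontrivial, mk_toType, card_ord]
    exact (by exact_mod_cast one_lt_aleph0 : (1 : Cardinal) < ℵ₀).trans_le hm.1
  obtain ⟨x, y, hxy⟩ := h0
  rcases lt_or_gt_of_ne hxy with h | h
  · exact ⟨_, hν x y h⟩
  · exact ⟨_, hν y x h⟩

/-- Under the `m`-chain condition increasing sequences of length `m` are eventually constant. -/
theorem exists_stable {B : Type u} [CompleteBooleanAlgebra B] (hm : m.IsRegular)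
    (hcc : ∀ c : Below m → B, (∀ i, c i ≠ ⊥) → ∃ i j, i ≠ j ∧ c i ⊓ c j ≠ ⊥)
    (e : Below m → B) (he : Monotone e) : ∃ β, ∀ ν, e ν ≤ e β := by
  by_contra hne
  push Not at hne
  choose N hN using hne
  obtain ⟨ν, hν⟩ := exists_seq hm N
  have hdisj : ∀ η ξ, η < ξ → (e (N (ν η)) ⊓ (e (ν η))ᶜ) ⊓ (e (N (ν ξ)) ⊓ (e (ν ξ))ᶜ) = ⊥ := by
    intro η ξ h
    have h1 : e (N (ν η)) ≤ e (ν ξ) := he (hν η ξ h).le
    refine le_bot_iff.1 ?_
    calc (e (N (ν η)) ⊓ (e (ν η))ᶜ) ⊓ (e (N (ν ξ)) ⊓ (e (ν ξ))ᶜ) ≤ e (ν ξ) ⊓ (e (ν ξ))ᶜ :=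
          inf_le_inf (inf_le_left.trans h1) inf_le_right
      _ = ⊥ := inf_compl_self _
  obtain ⟨i, j, hij, hne⟩ := hcc (fun ξ => e (N (ν ξ)) ⊓ (e (ν ξ))ᶜ) (by
    intro i h
    exact hN (ν i) (by
      have := disjoint_iff.2 h
      rwa [disjoint_compl_right_iff] at this))
  rcases lt_or_gt_of_ne hij with h | h
  · exact hne (hdisj i j h)
  · rw [inf_comm] at hne
    exact hne (hdisj j i h)

end Seq

/-- The first element: `d i` minus the earlier ones in `J`. -/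
noncomputable def first {B : Type u} [CompleteBooleanAlgebra B] {I : Type u} [LinearOrder I]
    (d : I → B) (J : Set I) (i : I) : B :=
  d i ⊓ (⨆ j ∈ {j | j ∈ J ∧ j < i}, d j)ᶜ

theorem first_le {B : Type u} [CompleteBooleanAlgebra B] {I : Type u} [LinearOrder I]
    (d : I → B) (J : Set I) (i : I) : first d J i ≤ d i := inf_le_left

theorem first_disj {B : Type u} [CompleteBooleanAlgebra B] {I : Type u} [LinearOrder I]
    (d : I → B) (J : Set I) {i j : I} (hi : i ∈ J) (hj : j ∈ J) (h : i ≠ j) :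
    first d J i ⊓ first d J j = ⊥ := by
  have key : ∀ i ∈ J, ∀ j, i < j → first d J i ⊓ first d J j = ⊥ := by
    intro i hi j hij
    refine le_bot_iff.1 ?_
    have h1 : d i ≤ ⨆ k ∈ {k | k ∈ J ∧ k < j}, d k := le_iSup₂_of_le i ⟨hi, hij⟩ le_rfl
    calc first d J i ⊓ first d J j
        ≤ (⨆ k ∈ {k | k ∈ J ∧ k < j}, d k) ⊓ (⨆ k ∈ {k | k ∈ J ∧ k < j}, d k)ᶜ :=
          inf_le_inf (inf_le_left.trans h1) inf_le_right
      _ = ⊥ := inf_compl_self _
  rcases lt_or_gt_of_ne h with h | h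
  · exact key i hi j h
  · rw [inf_comm]
    exact key j hj i h

theorem le_iSup_first {B : Type u} [CompleteBooleanAlgebra B] {I : Type u} [LinearOrder I]
    [WellFoundedLT I] (d : I → B) (J : Set I) (i : I) (hi : i ∈ J) :
    d i ≤ ⨆ j ∈ J, first d J j := by
  induction i using WellFoundedLT.induction with
  | ind i ih =>
    have h1 : (⨆ j ∈ {j | j ∈ J ∧ j < i}, d j) ≤ ⨆ j ∈ J, first d J j :=
      iSup₂_le fun j hj => ih j hj.2 hj.1
    have h2 : d i ≤ first d J i ⊔ (⨆ j ∈ {j | j ∈ J ∧ j < i}, d j) := by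
      unfold first
      rw [sup_inf_right, compl_sup_eq_top, inf_top_eq]
      exact le_sup_left
    exact h2.trans (sup_le (le_iSup₂_of_le i hi le_rfl) h1)

theorem main : VG_Stmt.{u} := by
  intro P _ m hm hcc Q hQ p q h1 h2 hQcc
  classical
  apply hQcc
  let d : Below m → RO P := fun i => emb (p i) ⊓ quotVal Q (q i)
  have hd : ∀ i, d i ≠ ⊥ := by
    intro i h
    have h3 : quotVal Q (q i) ⊓ quotVal Q (p i) = ⊥ := by
      rw [inf_quotVal_eq_bot_iff hQ (quotVal_mem hQ _), inf_comm]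
      exact h
    rw [inf_comm] at h3
    exact h1 i h3
  -- the condition
  let S : Below m → RO P := fun ν => ⨆ i ∈ {i | ν < i}, d i
  let w : RO P := ⨅ ν, S ν
  have hSanti : ∀ ν ν', ν ≤ ν' → S ν' ≤ S ν := fun ν ν' h =>
    iSup₂_le fun i hi => le_iSup₂_of_le i (h.trans_lt hi) le_rfl
  have hw : w ≠ ⊥ := by
    obtain ⟨β, hβ⟩ := exists_stable hm hcc (fun ν => (S ν)ᶜ)
      (fun ν ν' h => compl_le_compl (hSanti ν ν' h))
    have h3 : S β ≤ w := le_iInf fun ν => compl_le_compl_iff_le.1 (hβ ν)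
    obtain ⟨i, hi⟩ := exists_gt hm β
    intro h4
    rw [h4] at h3
    exact hd i (le_bot_iff.1 ((le_iSup₂_of_le i hi le_rfl).trans h3))
  -- bounds for the blocks
  have hB : ∀ ν, ∃ β, S ν ≤ ⨆ i ∈ {i | ν < i ∧ i ≤ β}, d i := by
    intro ν
    obtain ⟨β, hβ⟩ := exists_stable hm hcc (fun β => ⨆ i ∈ {i | ν < i ∧ i ≤ β}, d i)
      (fun β β' h => iSup₂_le fun i hi => le_iSup₂_of_le i ⟨hi.1, hi.2.trans h⟩ le_rfl)
    exact ⟨β, iSup₂_le fun i hi => (le_iSup₂_of_le i ⟨hi, le_rfl⟩ le_rfl).trans (hβ i)⟩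
  choose B hB using hB
  obtain ⟨ν, hν⟩ := exists_seq hm B
  let J : Below m → Set (Below m) := fun ξ => {i | ν ξ < i ∧ i ≤ B (ν ξ)}
  have hJ : ∀ ξ ζ, ξ ≠ ζ → ∀ i ∈ J ξ, ∀ j ∈ J ζ, i ≠ j := by
    intro ξ ζ h i hi j hj hij
    subst hij
    rcases lt_or_gt_of_ne h with h | h
    · exact absurd (hj.1.trans_le hi.2) (hν ξ ζ h).asymm
    · exact absurd (hi.1.trans_le hj.2) (hν ζ ξ h).asymm
  let τ : Below m → P → RO P := fun ξ r => sSup {b | ∃ i ∈ J ξ, q i = r ∧ b = first d (J ξ) i}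
  refine ⟨w, mem_univ _, hw, τ, ⟨fun _ _ => mem_univ _, ?_, ?_, ?_, ?_⟩⟩
  · intro ξ r r' hr
    rw [← disjoint_iff]
    refine sSup_disjoint_iff.2 ?_
    rintro _ ⟨i, hi, hi2, rfl⟩
    refine disjoint_sSup_iff.2 ?_
    rintro _ ⟨j, hj, hj2, rfl⟩
    rw [disjoint_iff]
    refine first_disj d (J ξ) hi hj ?_
    rintro rfl
    exact hr (hi2.symm.trans hj2)
  · intro ξ
    calc w ≤ S (ν ξ) := iInf_le _ _
      _ ≤ ⨆ i ∈ J ξ, d i := hB (ν ξ)
      _ ≤ ⨆ r, τ ξ r := iSup₂_le fun i hi => (le_iSup_first d (J ξ) i hi).trans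
          (iSup₂_le fun j hj => le_iSup_of_le (q j) (le_sSup ⟨j, hj, rfl, rfl⟩))
  · intro ξ r
    refine inf_le_right.trans (sSup_le ?_)
    rintro _ ⟨i, -, rfl, rfl⟩
    exact (first_le _ _ _).trans inf_le_right
  · intro ξ ζ hξ r r'
    by_contra hne
    obtain ⟨a, ha⟩ := exists_emb_le hne
    have ha1 : emb a ≤ τ ξ r := ha.trans (inf_le_left.trans (inf_le_left.trans inf_le_right))
    have ha2 : emb a ≤ τ ζ r' := ha.trans (inf_le_left.trans inf_le_right)
    have ha3 : emb a ≤ compatVal Q r r' := ha.trans inf_le_right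
    obtain ⟨a2, h5, _, ⟨i, hi1, hi2, rfl⟩, h6⟩ := (emb_le_sSup _ _).1 ha1 a le_rfl
    obtain ⟨a4, h9, _, ⟨j, hj1, hj2, rfl⟩, h10⟩ := (emb_le_sSup _ _).1
      ((emb_mono h5).trans ha2) a2 le_rfl
    obtain ⟨a5, h11, _, ⟨s, hs1, hs2, rfl⟩, h12⟩ := (emb_le_sSup _ _).1
      ((emb_mono (h9.trans h5)).trans ha3) a4 le_rfl
    have e1 : emb a5 ≤ emb (p i) :=
      (emb_mono (h11.trans h9)).trans (h6.trans ((first_le _ _ _).trans inf_le_left))
    have e2 : emb a5 ≤ emb (p j) :=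
      (emb_mono h11).trans (h10.trans ((first_le _ _ _).trans inf_le_left))
    obtain ⟨t1, ht1, ht2⟩ := compat_of_inf_ne_bot (ne_bot_of_emb_le (le_inf le_rfl e1))
    obtain ⟨t2, ht3, ht4⟩ := compat_of_inf_ne_bot
      (ne_bot_of_emb_le (le_inf le_rfl ((emb_mono ht1).trans e2)))
    subst hi2
    subst hj2
    have h13 := h2 i j (hJ ξ ζ hξ i hi1 j hj1) t2 (ht3.trans ht2) ht4 s hs1 hs2
    have h14 : emb t2 ≤ quotVal Q t2 ⊓ quotVal Q s :=
      le_inf (emb_le_quotVal t2) ((emb_mono (ht3.trans ht1)).trans h12)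
    rw [h13] at h14
    exact not_emb_le_bot t2 h14

end Pool.Agent.PQ54.VG
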