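import Pool.Agent.PQ54.Main
import Pool.Agent.PQ54.Rho
import Pool.Agent.PQ54.VG
import Pool.Agent.PQ54.CCVH
import Pool.Agent.PQ54.CardMods

/-!
The assembly of all the modules.
-/

set_option autoImplicit false

universe u

open Cardinal Set

namespace Pool.Agent.PQ54

theorem final : FINAL_Stmt.{u} :=
  final_of CARDM.card (RHO CARDM.evd CARDM.phi CARDM.card) CCVH.cc VG.main CCVH.vh CARDM.gchcard

end Pool.Agent.PQ54
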