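import Pool.Agent.PQ54.Stmts

/-!
Module FORCE: twins cannot be separated by the complete subalgebra of the non-separating elements.
-/

set_option autoImplicit false

universe u

open Cardinal Set

namespace Pool.Agent.PQ54.Force

/-! ### The Boolean completion -/

section RO

variable {P : Type u} [Preorder P]

theorem emb_le_iff (p : P) (c : RO P) : emb p ≤ c ↔ p ∈ (c.1 : LowerSet P) := by
  have h : emb p ≤ c ↔ LowerSet.Iic p ≤ c.1 := (Heyting.Regular.gi (α := LowerSet P)).gc _ _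
  rw [h]
  exact LowerSet.Iic_le

theorem emb_mono {p q : P} (h : p ≤ q) : emb p ≤ emb q := by
  have : LowerSet.Iic p ≤ LowerSet.Iic q := LowerSet.Iic_le.2 (by simpa using h)
  exact (Heyting.Regular.gi (α := LowerSet P)).gc.monotone_l this

theorem coe_bot : ((⊥ : RO P).1 : LowerSet P) = ⊥ := rfl

theorem emb_ne_bot (p : P) : emb p ≠ ⊥ := by
  intro h
  have h1 : p ∈ ((⊥ : RO P).1 : LowerSet P) := (emb_le_iff p ⊥).1 h.le
  rw [coe_bot] at h1
  exact LowerSet.notMem_bot h1

theorem exists_emb_le {c : RO P} (hc : c ≠ ⊥) : ∃ p, emb p ≤ c := by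
  by_contra h
  push Not at h
  apply hc
  apply Subtype.ext
  rw [coe_bot]
  refine le_antisymm ?_ bot_le
  intro p hp
  exact absurd ((emb_le_iff p c).2 hp) (h p)

/-- `emb p` and `emb q` are compatible iff `p` and `q` are. -/
theorem exists_le_of_emb_le {p q : P} (h : emb q ≤ emb p) : ∃ s, s ≤ p ∧ s ≤ q := by
  by_contra hne
  push Not at hne
  have h1 : Disjoint (LowerSet.Iic q) (LowerSet.Iic p) := by
    rw [disjoint_iff_inf_le]
    intro s hs
    exact absurd hs.1 (hne s hs.2)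
  have h2 : LowerSet.Iic q ≤ (LowerSet.Iic p)ᶜ := le_compl_iff_disjoint_right.2 h1
  have h3 : LowerSet.Iic q ≤ (LowerSet.Iic p)ᶜᶜ := (emb_le_iff q (emb p)).1 h |> fun h4 =>
    LowerSet.Iic_le.2 h4
  have h4 : LowerSet.Iic q ≤ ⊥ := by
    have := le_inf h2 h3
    rwa [inf_compl_self] at this
  exact LowerSet.notMem_bot (h4 (LowerSet.mem_Iic_iff.2 le_rfl))

/-- Density. -/
theorem exists_le_of_le_sSup {p : P} {S : Set (RO P)} (h : emb p ≤ sSup S) :
    ∃ p' ≤ p, ∃ c ∈ S, emb p' ≤ c := by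
  by_contra hne
  push Not at hne
  have h1 : ∀ c ∈ S, emb p ⊓ c = ⊥ := by
    intro c hc
    by_contra h2
    obtain ⟨q, hq⟩ := exists_emb_le h2
    obtain ⟨s, hs1, hs2⟩ := exists_le_of_emb_le (hq.trans inf_le_left)
    exact hne s hs1 c hc ((emb_mono hs2).trans (hq.trans inf_le_right))
  have h2 : sSup S ≤ (emb p)ᶜ := sSup_le fun c hc =>
    le_compl_iff_disjoint_left.2 (disjoint_iff.2 (h1 c hc))
  have h3 : emb p ≤ (emb p)ᶜ := h.trans h2
  exact emb_ne_bot p (le_compl_self.1 h3)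

theorem sInf_mem {Q : Set (RO P)} (hQ : IsCompleteSubalgebra Q) {S : Set (RO P)} (hS : S ⊆ Q) :
    sInf S ∈ Q := by
  have h : sInf S = (sSup (compl '' S))ᶜ := by
    rw [compl_sSup', ← Set.image_comp]
    simp
  rw [h]
  apply hQ.compl_mem
  apply hQ.sSup_mem
  rintro _ ⟨c, hc, rfl⟩
  exact hQ.compl_mem c (hS hc)

theorem quotVal_mem {Q : Set (RO P)} (hQ : IsCompleteSubalgebra Q) (p : P) : quotVal Q p ∈ Q :=
  sInf_mem hQ fun _ h => h.1

theorem emb_le_quotVal (Q : Set (RO P)) (p : P) : emb p ≤ quotVal Q p :=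
  le_sInf fun _ h => h.2

end RO

/-! ### The strong Prikry property -/

section Prikry

variable {X : Type u} {r : X → X → Prop} {U : Ultrafilter X}

theorem below_mem (hr : Abs r U) (t : List X) : {y | ∀ x ∈ t, r x y} ∈ U := by
  induction t with
  | nil =>
    simp only [List.not_mem_nil, false_implies, implies_true]
    exact Filter.univ_mem
  | cons a t ih =>
    have := Filter.inter_mem (hr.up a) ih
    filter_upwards [this] with y hy x hx
    rcases List.mem_cons.1 hx with rfl | h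
    · exact hy.1
    · exact hy.2 x h

theorem mem_above (hr : Abs r U) {t : List X} (ht : t.IsChain r) {y : X}
    (hy : ∀ x ∈ t.getLast?, r x y) : ∀ x ∈ t, r x y := by
  have : IsTrans X r := ⟨hr.trans⟩
  intro x hx
  rcases List.eq_nil_or_concat t with rfl | ⟨s, z, rfl⟩
  · exact absurd hx (by simp)
  · rw [List.concat_eq_append] at *
    have hz : r z y := hy z (by simp)
    have hp : (s ++ [z]).Pairwise r := List.isChain_iff_pairwise.1 ht
    rcases List.mem_append.1 hx with h | h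
    · exact hr.trans _ _ _ ((List.pairwise_append.1 hp).2.2 x h z (by simp)) hz
    · rw [List.mem_singleton.1 h]
      exact hz

/-- The condition with stem `t` and set `B` cut above `t`. -/
def cut (hr : Abs r U) (t : List X) (ht : t.IsChain r) (B : Set X) (hB : B ∈ U) : Cond r U where
  stem := t
  meas := {y | y ∈ B ∧ ∀ x ∈ t, r x y}
  chain := ht
  mem := Filter.inter_mem hB (below_mem hr t)
  above := fun x hx _ hy => hy.2 x (List.mem_of_getLast? hx)

theorem strong_prikry (hr : Abs r U) (p : Cond r U) (D : Set (Cond r U))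
    (hD : ∀ s ∈ D, ∀ q ≤ s, q ∈ D) (hd : ∀ q ≤ p, ∃ s ≤ q, s ∈ D) :
    ∃ B ∈ U, B ⊆ p.meas ∧ ∃ n : ℕ, ∀ q : Cond r U,
      (∃ l : List X, l.length = n ∧ q.stem = p.stem ++ l ∧ ∀ y ∈ l, y ∈ B) →
        q.meas ⊆ B → q ∈ D := by
  classical
  -- first fusion
  let B1 : List X → Set X := fun t => if h : ∃ q ∈ D, q.stem = t then (Classical.choose h).meas
    else Set.univ
  have hB1 : ∀ t, B1 t ∈ U := by
    intro t
    by_cases h : ∃ q ∈ D, q.stem = t
    · simp only [B1, dif_pos h]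
      exact (Classical.choose h).mem
    · simp only [B1, dif_neg h]
      exact Filter.univ_mem
  -- levels
  let G : ℕ → Set (List X) := fun n => Nat.rec {t | ∃ q ∈ D, q.stem = t}
    (fun _ S => {t | {y | t ++ [y] ∈ S} ∈ U}) n
  have hG0 : ∀ t, t ∈ G 0 ↔ ∃ q ∈ D, q.stem = t := fun t => Iff.rfl
  have hG1 : ∀ n t, t ∈ G (n + 1) ↔ {y | t ++ [y] ∈ G n} ∈ U := fun n t => Iff.rfl
  let H : List X → ℕ → Set X := fun t n => if t ∈ G (n + 1) then {y | t ++ [y] ∈ G n}
    else {y | t ++ [y] ∉ G n}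
  have hH : ∀ t n, H t n ∈ U := by
    intro t n
    by_cases h : t ∈ G (n + 1)
    · simp only [H, if_pos h]
      exact (hG1 n t).1 h
    · simp only [H, if_neg h]
      have h' : {y | t ++ [y] ∈ G n} ∉ U := fun h2 => h ((hG1 n t).2 h2)
      exact (Ultrafilter.compl_mem_iff_notMem.2 h')
  let B : Set X := {y | (y ∈ p.meas ∧ ∀ t : List X, (∀ x ∈ t, r x y) → y ∈ B1 t) ∧
    ∀ t : List X, (∀ x ∈ t, r x y) → y ∈ ⋂ n, H t n}
  have hB : B ∈ U := Filter.inter_mem (Filter.inter_mem p.mem (hr.diag B1 hB1))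
    (hr.diag _ fun t => hr.countable _ (hH t))
  have step : ∀ t : List X, ∀ y ∈ B, (∀ x ∈ t, r x y) → ∀ n,
      (t ++ [y] ∈ G n ↔ t ∈ G (n + 1)) := by
    intro t y hy ht n
    have h1 : y ∈ H t n := Set.mem_iInter.1 (hy.2 t ht) n
    by_cases h : t ∈ G (n + 1)
    · simp only [H, if_pos h] at h1
      exact ⟨fun _ => h, fun _ => h1⟩
    · simp only [H, if_neg h] at h1
      exact ⟨fun h2 => absurd h2 h1, fun h2 => absurd h2 h⟩
  have : IsTrans X r := ⟨hr.trans⟩
  have steps : ∀ l : List X, (∀ y ∈ l, y ∈ B) → ∀ t : List X, (t ++ l).Pairwise r → ∀ n,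
      (t ++ l ∈ G n ↔ t ∈ G (n + l.length)) := by
    intro l
    induction l with
    | nil => intro _ t _ n; simp
    | cons y l ih =>
      intro hl t ht n
      have e : t ++ y :: l = (t ++ [y]) ++ l := by simp
      rw [e] at ht ⊢
      rw [ih (fun z hz => hl z (List.mem_cons_of_mem _ hz)) (t ++ [y]) ht n]
      have hb : ∀ x ∈ t, r x y := by
        have h1 := (List.pairwise_append.1 ht).1
        exact fun x hx => (List.pairwise_append.1 h1).2.2 x hx y (List.mem_singleton.2 rfl)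
      rw [step t y (hl y List.mem_cons_self) hb]
      have : n + l.length + 1 = n + (y :: l).length := by simp [add_assoc]
      rw [this]
  refine ⟨B, hB, fun y hy => hy.1.1, ?_⟩
  obtain ⟨s, hs, hsD⟩ := hd (cut hr p.stem p.chain B hB) ⟨[], by simp [cut], by simp,
    fun y hy => hy.1.1.1⟩
  obtain ⟨l, hl1, hl2, _⟩ := hs
  have hl1' : s.stem = p.stem ++ l := hl1
  have hpG : p.stem ∈ G (0 + l.length) := by
    rw [← steps l (fun y hy => (hl2 y hy).1) p.stem
      (List.isChain_iff_pairwise.1 (hl1' ▸ s.chain)) 0]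
    exact (hG0 _).2 ⟨s, hsD, hl1'⟩
  refine ⟨l.length, ?_⟩
  rintro q ⟨m, hm, hq, hmB⟩ hqB
  have h1 : q.stem ∈ G 0 := by
    rw [hq, steps m hmB p.stem (List.isChain_iff_pairwise.1 (hq ▸ q.chain)) 0, hm]
    exact hpG
  have h2 : ∃ q' ∈ D, q'.stem = q.stem := h1
  have h3 := Classical.choose_spec h2
  refine hD _ h3.1 q ⟨[], by simp [h3.2], by simp, ?_⟩
  intro y hy
  have h4 : y ∈ B1 q.stem := (hqB hy).1.2 q.stem
    (mem_above hr q.chain (fun x hx => q.above x hx y hy))
  simp only [B1, dif_pos h2] at h4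
  exact h4

end Prikry

/-! ### Twins -/

section Twins

variable {X V : Type u} {r : X → X → Prop} {U : Ultrafilter X} {vis : List X → ℕ → Option V}
  {T : Cond r U → Cond r U → Prop}

theorem ext_steps (hT : IsTwin vis T) (n : ℕ) : ∀ p q : Cond r U, T p q → ∃ p' q' : Cond r U,
    T p' q' ∧ p' ≤ p ∧ q' ≤ q ∧ (∃ l : List X, l.length = n ∧ p'.stem = p.stem ++ l ∧
      ∀ y ∈ l, y ∈ p.meas) := by
  induction n with
  | zero => exact fun p q h => ⟨p, q, h, le_rfl, le_rfl, [], rfl, by simp, by simp⟩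
  | succ n ih =>
    intro p q h
    obtain ⟨p1, q1, h1, h2, h3, ⟨y, hy⟩, -, -, -⟩ :=
      hT.ext p q h Set.univ Filter.univ_mem Set.univ Filter.univ_mem
    obtain ⟨p2, q2, h4, h5, h6, l, hl, hl1, hl2⟩ := ih p1 q1 h1
    have h7 := h2
    obtain ⟨m, hm1, hm2, hm3⟩ := h7
    have hm : m = [y] := by
      rw [hy] at hm1
      exact (List.append_cancel_left hm1).symm
    subst hm
    refine ⟨p2, q2, h4, h5.trans h2, h6.trans h3, y :: l, by simp [hl], by simp [hl1, hy], ?_⟩
    intro z hz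
    rcases List.mem_cons.1 hz with rfl | hz
    · exact hm2 z (by simp)
    · exact hm3 (hl2 z hz)

/-- The elements that do not separate twins. -/
def nonSep (T : Cond r U → Cond r U → Prop) : Set (RO (Cond r U)) :=
  {c | ∀ p q, T p q → ¬ (emb p ≤ c ∧ emb q ≤ cᶜ)}

theorem vis_eq_of_le {p : Cond r U} (hv : Vis vis) {q : Cond r U} (h : q ≤ p) {n : ℕ} {v : V}
    (hp : vis p.stem n = some v) : vis q.stem n = some v := by
  obtain ⟨l, hl, -, -⟩ := h
  rw [hl]
  exact hv.mono _ _ _ _ hp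

theorem val_mem (hv : Vis vis) (hT : IsTwin vis T) (n : ℕ) (v : V) :
    val vis n v ∈ nonSep T := by
  rintro p q hpq ⟨h1, h2⟩
  obtain ⟨p', q', h3, h4, h5, l, hl, hl1, -⟩ := ext_steps hT (n + 2) p q hpq
  obtain ⟨v', hv'⟩ := hv.total p'.stem n (by rw [hl1, List.length_append]; omega)
  have hq' : vis q'.stem n = some v' := by rw [← hT.vis_eq p' q' h3 n, hv']
  have h6 : emb p' ≤ val vis n v := (emb_mono h4).trans h1
  obtain ⟨p'', hp'', c, ⟨s, hs, rfl⟩, hc⟩ := exists_le_of_le_sSup h6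
  obtain ⟨w, hw1, hw2⟩ := exists_le_of_emb_le hc
  have e1 := vis_eq_of_le hv hw1 hs
  have e2 := vis_eq_of_le hv (hw2.trans hp'') hv'
  have e3 : v' = v := by
    rw [e1] at e2
    exact (Option.some_injective _ e2).symm
  subst e3
  have h7 : emb q' ≤ val vis n v' := le_sSup ⟨q', hq', rfl⟩
  have h8 : emb q' ≤ (val vis n v')ᶜ := (emb_mono h5).trans h2
  have h9 : emb q' ≤ ⊥ := by
    have := le_inf h7 h8
    rwa [inf_compl_self] at this
  exact emb_ne_bot q' (le_bot_iff.1 h9)

theorem nonSep_subalgebra (hr : Abs r U) (hT : IsTwin vis T) :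
    IsCompleteSubalgebra (nonSep T) where
  compl_mem := by
    rintro c hc p q hpq ⟨h1, h2⟩
    rw [compl_compl] at h2
    exact hc q p (hT.symm p q hpq) ⟨h2, h1⟩
  sSup_mem := by
    classical
    rintro S hS p q hpq ⟨h1, h2⟩
    -- the open dense set
    let D : Set (Cond r U) := {s | ∃ c ∈ S, emb s ≤ c}
    have hD : ∀ s ∈ D, ∀ q ≤ s, q ∈ D := fun s ⟨c, hc, hs⟩ q hq => ⟨c, hc, (emb_mono hq).trans hs⟩
    have hd : ∀ p' ≤ p, ∃ s ≤ p', s ∈ D := fun p' hp' =>
      exists_le_of_le_sSup ((emb_mono hp').trans h1)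
    -- one step extensions of `p`
    have key : ∀ y : X, ∃ B ∈ U, y ∈ p.meas → ∃ n : ℕ, ∀ s : Cond r U,
        (∃ l : List X, l.length = n ∧ s.stem = p.stem ++ [y] ++ l ∧ ∀ y ∈ l, y ∈ B) →
          s.meas ⊆ B → s ∈ D := by
      intro y
      by_cases hy : y ∈ p.meas
      · have hch : (p.stem ++ [y]).IsChain r :=
          List.isChain_append.2 ⟨p.chain, by simp, fun x hx z hz => by
            have : z = y := by simpa using hz.symm
            subst this
            exact p.above x hx _ hy⟩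
        let py : Cond r U := cut hr (p.stem ++ [y]) hch p.meas p.mem
        have hpy : py ≤ p := ⟨[y], rfl, by simpa using hy, fun z hz => hz.1⟩
        obtain ⟨B, hB, -, n, hn⟩ := strong_prikry hr py D hD fun p' hp' => hd p' (hp'.trans hpy)
        exact ⟨B, hB, fun _ => ⟨n, hn⟩⟩
      · exact ⟨Set.univ, Filter.univ_mem, fun h => absurd h hy⟩
    choose B hB hBn using key
    let A : List X → Set X := fun t => if h : ∃ y, t = [y] then B (Classical.choose h)
      else Set.univ
    have hA : ∀ t, A t ∈ U := by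
      intro t
      by_cases h : ∃ y, t = [y]
      · simp only [A, dif_pos h]
        exact hB _
      · simp only [A, dif_neg h]
        exact Filter.univ_mem
    have hA1 : ∀ y, A [y] = B y := by
      intro y
      have h : ∃ z, [y] = [z] := ⟨y, rfl⟩
      simp only [A, dif_pos h]
      have := Classical.choose_spec h
      rw [← (List.cons.inj this).1]
    obtain ⟨p', q', h3, h4, h5, ⟨y, hy⟩, -, h6, -⟩ :=
      hT.ext p q hpq _ (hr.diag A hA) Set.univ Filter.univ_mem
    have hyp : y ∈ p.meas := by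
      obtain ⟨m, hm1, hm2, -⟩ := h4
      have hm : m = [y] := by
        rw [hy] at hm1
        exact (List.append_cancel_left hm1).symm
      exact hm2 y (by simp [hm])
    obtain ⟨n, hn⟩ := hBn y hyp
    have hmB : p'.meas ⊆ B y := by
      intro z hz
      have h7 := h6 hz
      have h8 : z ∈ A [y] := h7 [y] (by
        intro x hx
        rw [List.mem_singleton.1 hx]
        exact p'.above y (by simp [hy]) z hz)
      rwa [hA1] at h8
    obtain ⟨p'', q'', h9, h10, h11, l, hl, hl1, hl2⟩ := ext_steps hT n p' q' h3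
    obtain ⟨c, hc, hpc⟩ : p'' ∈ D := by
      apply hn p'' ⟨l, hl, by rw [hl1, hy], fun z hz => hmB (hl2 z hz)⟩
      obtain ⟨_, _, _, h12⟩ := h10
      exact h12.trans hmB
    refine hS hc p'' q'' h9 ⟨hpc, ?_⟩
    calc emb q'' ≤ emb q := emb_mono (h11.trans h5)
      _ ≤ (sSup S)ᶜ := h2
      _ ≤ cᶜ := compl_le_compl (le_sSup hc)

theorem quotVal_inf_ne (hr : Abs r U) (hT : IsTwin vis T) (p q : Cond r U) (h : T p q) :
    quotVal (nonSep T) p ⊓ quotVal (nonSep T) q ≠ ⊥ := by
  intro hbot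
  have h1 : quotVal (nonSep T) p ∈ nonSep T := quotVal_mem (nonSep_subalgebra hr hT) p
  refine h1 p q h ⟨emb_le_quotVal _ p, ?_⟩
  exact (emb_le_quotVal _ q).trans (le_compl_iff_disjoint_left.2 (disjoint_iff.2 hbot))

end Twins

theorem main : FORCE_Stmt.{u} := by
  intro X V r U vis T hr hv hT
  exact ⟨nonSep T, nonSep_subalgebra hr hT, val_mem hv hT, quotVal_inf_ne hr hT⟩

end Pool.Agent.PQ54.Force
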