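import Pool.Agent.PQ54.Stmts

/-!
Module MEAS: the toolkit of a fine normal measure on `P_κ(κ⁺)`.
-/

set_option autoImplicit false

universe u

open Cardinal Set

namespace Pool.Agent.PQ54

namespace MeasAux

theorem ov_lt {l : Cardinal.{u}} (a : Below l) : ov a < l.ord := (Ordinal.ToType.toOrd a).2

theorem ov_lt_ov {l : Cardinal.{u}} {a b : Below l} : ov a < ov b ↔ a < b := by
  unfold ov
  rw [Subtype.coe_lt_coe]
  exact (Ordinal.ToType.mk (o := l.ord)).symm.lt_iff_lt

theorem ov_inj {l : Cardinal.{u}} {a b : Below l} (h : ov a = ov b) : a = b := by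
  have : Ordinal.ToType.toOrd a = Ordinal.ToType.toOrd b := Subtype.ext h
  exact (Ordinal.ToType.mk (o := l.ord)).symm.injective this

theorem exists_ov {l : Cardinal.{u}} {o : Ordinal.{u}} (h : o < l.ord) : ∃ a : Below l, ov a = o :=
  ⟨Ordinal.ToType.mk ⟨o, h⟩, by simp [ov]⟩

theorem mk_below {l : Cardinal.{u}} : #(Below l) = l := by simp

theorem ov_eq_typein {l : Cardinal.{u}} (a : Below l) :
    ov a = Ordinal.typein (α := Below l) (· < ·) a := rfl

theorem mk_Iio_lt' {κ l : Cardinal.{u}} {a : Below l} (h : ov a < κ.ord) : #(Iio a) < κ := by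
  have h1 : (ov a).card < κ := lt_ord.1 h
  rw [ov_eq_typein] at h1
  exact h1

section
variable {X : Type u} {U : Ultrafilter X}

theorem list_const {α : Type u} {R : α → X → Prop}
    (hc : ∀ s : ℕ → Set X, (∀ n, s n ∈ U) → (⋂ n, s n) ∈ U)
    (hR : ∀ g : X → α, {z | R (g z) z} ∈ U → ∃ a, {z | g z = a} ∈ U)
    (g : X → List α) (hg : {z | ∀ a ∈ g z, R a z} ∈ U) : ∃ l, {z | g z = l} ∈ U := by
  have h0 : ∃ n, {z | (g z).length = n} ∈ U := by
    by_contra hne
    push Not at hne
    have h1 : ∀ n, {z | (g z).length = n}ᶜ ∈ U := fun n =>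
      Ultrafilter.compl_mem_iff_notMem.2 (hne n)
    have h2 := hc _ h1
    obtain ⟨z, hz⟩ := U.nonempty_of_mem h2
    exact (mem_iInter.1 hz (g z).length) rfl
  obtain ⟨n, hn⟩ := h0
  induction n generalizing g with
  | zero =>
    refine ⟨[], Filter.mem_of_superset hn ?_⟩
    intro z hz
    exact List.length_eq_zero_iff.1 hz
  | succ n ih =>
    obtain ⟨z0, hz0⟩ := U.nonempty_of_mem hn
    have hz0' : (g z0).length = n + 1 := hz0
    obtain ⟨a0, t0, ht0⟩ := List.exists_cons_of_length_eq_add_one hz0'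
    obtain ⟨a, ha⟩ := hR (fun z => (g z).headD a0) (by
      refine Filter.mem_of_superset (Filter.inter_mem hg hn) ?_
      rintro z ⟨h1, h2⟩
      obtain ⟨b, t, hbt⟩ := List.exists_cons_of_length_eq_add_one (show (g z).length = n + 1 from h2)
      have h3 := h1 b (by rw [hbt]; simp)
      show R ((g z).headD a0) z
      rw [hbt]; exact h3)
    obtain ⟨t, ht⟩ := ih (fun z => (g z).tail) (by
      refine Filter.mem_of_superset hg ?_
      intro z hz b hb
      exact hz b (List.mem_of_mem_tail hb)) (by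
      refine Filter.mem_of_superset hn ?_
      intro z hz
      show (g z).tail.length = n
      rw [List.length_tail, show (g z).length = n + 1 from hz]; rfl)
    refine ⟨a :: t, Filter.mem_of_superset (Filter.inter_mem hn (Filter.inter_mem ha ht)) ?_⟩
    rintro z ⟨h1, h2, h3⟩
    obtain ⟨b, s, hbt⟩ := List.exists_cons_of_length_eq_add_one (show (g z).length = n + 1 from h1)
    have h2' : (g z).headD a0 = a := h2
    have h3' : (g z).tail = t := h3
    rw [hbt] at h2' h3'
    show g z = a :: t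
    rw [hbt]
    simp at h2' h3'
    rw [h2', h3']

/-- A family of diagonal type. -/
theorem diag_of_const {α : Type u} {R : α → X → Prop}
    (hR : ∀ g : X → α, {z | R (g z) z} ∈ U → ∃ a, {z | g z = a} ∈ U)
    (A : α → Set X) (hA : ∀ a, A a ∈ U) : {z | ∀ a, R a z → z ∈ A a} ∈ U := by
  by_contra hne
  have h1 := Ultrafilter.compl_mem_iff_notMem.2 hne
  obtain ⟨z0, hz0⟩ := U.nonempty_of_mem h1
  have h2 : ∀ z ∈ {z | ∀ a, R a z → z ∈ A a}ᶜ, ∃ a, R a z ∧ z ∉ A a := by
    intro z hz
    by_contra hc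
    push Not at hc
    exact hz hc
  obtain ⟨a0, -⟩ := h2 z0 hz0
  classical
  let f : X → α := fun z => if h : ∃ a, R a z ∧ z ∉ A a then h.choose else a0
  have hf : ∀ z ∈ {z | ∀ a, R a z → z ∈ A a}ᶜ, R (f z) z ∧ z ∉ A (f z) := by
    intro z hz
    have h := h2 z hz
    have : f z = h.choose := dif_pos h
    rw [this]
    exact h.choose_spec
  obtain ⟨a, ha⟩ := hR f (Filter.mem_of_superset h1 fun z hz => (hf z hz).1)
  obtain ⟨z, hz1, hz2, hz3⟩ := U.nonempty_of_mem (Filter.inter_mem h1 (Filter.inter_mem ha (hA a)))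
  have h4 := (hf z hz1).2
  rw [show f z = a from hz2] at h4
  exact h4 hz3

end

variable {κ l : Cardinal.{u}} {U : Ultrafilter (PK κ l)}

theorem ccompl (h : IsNormalFine κ l U) (s : ℕ → Set (PK κ l)) (hs : ∀ n, s n ∈ U) :
    (⋂ n, s n) ∈ U := by
  have h1 := h.complete (ULift.{u} ℕ) (fun n => s n.down) (by
    rw [mk_uLift, mk_nat, lift_aleph0]; exact h.uncountable) (fun n => hs n.down)
  refine Filter.mem_of_superset h1 ?_
  intro z hz
  rw [mem_iInter] at hz ⊢
  intro n
  exact hz ⟨n⟩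

theorem subset_mem (h : IsNormalFine κ l U) (x : Set (Below l)) (hx : #x < κ) :
    {z : PK κ l | x ⊆ z.1} ∈ U := by
  have h1 := h.complete x (fun a => {z : PK κ l | a.1 ∈ z.1}) hx (fun a => h.fine a.1)
  refine Filter.mem_of_superset h1 ?_
  intro z hz a ha
  exact mem_iInter.1 hz ⟨a, ha⟩

theorem init_mem (h : IsNormalFine κ l U) :
    {z : PK κ l | ∀ a ∈ z.1, ov a < κ.ord → ∀ b < a, b ∈ z.1} ∈ U := by
  have h1 : ∀ a : Below l, {z : PK κ l | ov a < κ.ord → ∀ b < a, b ∈ z.1} ∈ U := by
    intro a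
    by_cases ha : ov a < κ.ord
    · refine Filter.mem_of_superset (subset_mem h (Iio a) (mk_Iio_lt' ha)) ?_
      intro z hz _ b hb
      exact hz hb
    · exact Filter.mem_of_superset Filter.univ_mem fun z _ h' => absurd h' ha
  refine Filter.mem_of_superset (diag_of_const (R := fun a z => a ∈ z.1) h.normal _ h1) ?_
  intro z hz a ha hk b hb
  exact hz a ha hk b hb

theorem otp_lt {x : Set (Below l)} (hx : #x < κ) : otp x < κ.ord := by
  rw [lt_ord]
  exact hx

theorem exists_otp (hkl : κ ≤ l) {x : Set (Below l)} (hx : #x < κ) : ∃ a : Below l, ov a = otp x :=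
  exists_ov ((otp_lt hx).trans_le (ord_le_ord.2 hkl))

theorem prec_mem (hkl : κ ≤ l) (h : IsNormalFine κ l U) (x : PK κ l) : {z | Prec x z} ∈ U := by
  obtain ⟨a, ha⟩ := exists_otp hkl x.2
  refine Filter.mem_of_superset (Filter.inter_mem (subset_mem h x.1 x.2)
    (Filter.inter_mem (init_mem h) (h.fine a))) ?_
  rintro z ⟨h1, h2, h3⟩
  exact ⟨h1, h2, a, h3, ha⟩

theorem prec_const (h : IsNormalFine κ l U) (g : PK κ l → PK κ l)
    (hg : {z | Prec (g z) z} ∈ U) : ∃ x, {z | g z = x} ∈ U := by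
  classical
  obtain ⟨z0, hz0⟩ := U.nonempty_of_mem hg
  obtain ⟨-, -, a0, -, -⟩ := (hz0 : Prec (g z0) z0)
  -- the order type is constant
  let f : PK κ l → Below l := fun z =>
    if h : ∃ a ∈ z.1, ov a = otp (g z).1 then h.choose else a0
  have hf : ∀ z ∈ {z | Prec (g z) z}, f z ∈ z.1 ∧ ov (f z) = otp (g z).1 := by
    intro z hz
    have h1 : ∃ a ∈ z.1, ov a = otp (g z).1 := hz.2.2
    have : f z = h1.choose := dif_pos h1
    rw [this]
    exact h1.choose_spec
  obtain ⟨a, ha⟩ := h.normal f (Filter.mem_of_superset hg fun z hz => (hf z hz).1)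
  have h2 : {z | Prec (g z) z ∧ otp (g z).1 = ov a} ∈ U := by
    refine Filter.mem_of_superset (Filter.inter_mem hg ha) ?_
    rintro z ⟨h3, h4⟩
    refine ⟨h3, ?_⟩
    rw [← (hf z h3).2, show f z = a from h4]
  -- enumerations
  have h3 : ∀ z, otp (g z).1 = ov a → ∃ e : (ov a).ToType → Below l, range e = (g z).1 := by
    intro z hz
    have h4 : Ordinal.type (fun p q : (g z).1 => p < q) =
        Ordinal.type (fun p q : (ov a).ToType => p < q) := by
      rw [Ordinal.type_toType]; exact hz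
    obtain ⟨e⟩ := Ordinal.type_eq.1 h4
    refine ⟨fun i => (e.symm i).1, ?_⟩
    ext b
    constructor
    · rintro ⟨i, rfl⟩
      exact (e.symm i).2
    · intro hb
      exact ⟨e ⟨b, hb⟩, by simp⟩
  let E : PK κ l → (ov a).ToType → Below l := fun z =>
    if hz : otp (g z).1 = ov a then (h3 z hz).choose else fun _ => a0
  have hE : ∀ z ∈ {z | Prec (g z) z ∧ otp (g z).1 = ov a}, range (E z) = (g z).1 := by
    intro z hz
    have : E z = (h3 z hz.2).choose := dif_pos hz.2
    rw [this]
    exact (h3 z hz.2).choose_spec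
  have h5 : ∀ i, ∃ b, {z | E z i = b} ∈ U := by
    intro i
    apply h.normal
    refine Filter.mem_of_superset h2 ?_
    intro z hz
    have h6 : E z i ∈ (g z).1 := by rw [← hE z hz]; exact ⟨i, rfl⟩
    exact hz.1.1 h6
  choose b hb using h5
  have hcard : #(ov a).ToType < κ := by
    obtain ⟨z, hz⟩ := U.nonempty_of_mem h2
    have h6 : otp (g z).1 < κ.ord := otp_lt (g z).2
    rw [hz.2, lt_ord] at h6
    rw [mk_toType]; exact h6
  have h7 := h.complete _ (fun i => {z | E z i = b i}) hcard hb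
  have hsz : ∀ z ∈ {z | Prec (g z) z ∧ otp (g z).1 = ov a} ∩ ⋂ i, {z | E z i = b i},
      (g z).1 = range b := by
    rintro z ⟨h8, h9⟩
    rw [← hE z h8]
    congr 1
    funext i
    exact mem_iInter.1 h9 i
  obtain ⟨z1, hz1⟩ := U.nonempty_of_mem (Filter.inter_mem h2 h7)
  refine ⟨g z1, Filter.mem_of_superset (Filter.inter_mem h2 h7) ?_⟩
  intro z hz
  exact Subtype.ext ((hsz z hz).trans (hsz z1 hz1).symm)

theorem closed_mem (h : IsNormalFine κ l U) (F : List (Below l) → Below l) :
    {z : PK κ l | ∀ t : List (Below l), (∀ a ∈ t, a ∈ z.1) → F t ∈ z.1} ∈ U := by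
  refine Filter.mem_of_superset (diag_of_const (R := fun (t : List (Below l)) (z : PK κ l) =>
    ∀ a ∈ t, a ∈ z.1) (fun g hg => list_const (R := fun a (z : PK κ l) => a ∈ z.1) (ccompl h)
      h.normal g hg) (fun t => {z | F t ∈ z.1}) (fun t => h.fine _)) ?_
  intro z hz t ht
  exact hz t ht

theorem closed_prec_mem (h : IsNormalFine κ l U) (G : PK κ l → Below l) :
    {z : PK κ l | ∀ x, Prec x z → G x ∈ z.1} ∈ U :=
  diag_of_const (R := Prec) (prec_const h) (fun x => {z | G x ∈ z.1}) (fun _ => h.fine _)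

theorem diag_list_mem (h : IsNormalFine κ l U) (A : List (PK κ l) → Set (PK κ l))
    (hA : ∀ t, A t ∈ U) :
    {z | ∀ t : List (PK κ l), (∀ x ∈ t, Prec x z) → z ∈ A t} ∈ U :=
  diag_of_const (R := fun (t : List (PK κ l)) z => ∀ x ∈ t, Prec x z)
    (fun g hg => list_const (R := Prec) (ccompl h) (prec_const h) g hg) A hA

end MeasAux

open MeasAux

section
variable {k : Cardinal.{u}} {U : Ultrafilter (PK k (Order.succ k))}

theorem ov_inj_eq (b : Below k) : ov (inj b) = ov b := by
  simp [ov, inj]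

theorem inj_lt_inj {b c : Below k} : inj b < inj c ↔ b < c := by
  rw [← ov_lt_ov, ov_inj_eq, ov_inj_eq, ov_lt_ov]

theorem exists_inj {a : Below (Order.succ k)} (h : ov a < k.ord) : ∃ b : Below k, inj b = a := by
  obtain ⟨b, hb⟩ := exists_ov h
  exact ⟨b, ov_inj (by rw [ov_inj_eq, hb])⟩

theorem inj_injective : Function.Injective (inj : Below k → Below (Order.succ k)) := by
  intro b c h
  have := congrArg ov h
  rw [ov_inj_eq, ov_inj_eq] at this
  exact ov_inj this

theorem exists_notMem (z : PK k (Order.succ k)) : ∃ b : Below k, inj b ∉ z.1 := by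
  by_contra hc
  push Not at hc
  have h1 : #(Below k) ≤ #z.1 :=
    mk_le_of_injective (f := fun b => (⟨inj b, hc b⟩ : z.1)) (fun b c hbc =>
      inj_injective (Subtype.ext_iff.1 hbc))
  rw [mk_below] at h1
  exact absurd z.2 (not_lt.2 h1)

theorem kap_notMem (z : PK k (Order.succ k)) : inj (kap z) ∉ z.1 := by
  have h := exists_notMem z
  unfold kap
  rw [dif_pos h]
  exact WellFounded.min_mem (wellFounded_lt : WellFounded (fun a b : Below k => a < b))
      {b | inj b ∉ z.1} h

theorem inj_mem_of_lt_kap (z : PK k (Order.succ k)) (b : Below k) (hb : b < kap z) :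
    inj b ∈ z.1 := by
  by_contra hc
  have h := exists_notMem z
  unfold kap at hb
  rw [dif_pos h] at hb
  exact WellFounded.not_lt_min (wellFounded_lt : WellFounded (fun a b : Below k => a < b))
      {b | inj b ∉ z.1} hc hb

theorem meas4 (h : IsNormalFine k (Order.succ k) U) : Meas4 U := by
  refine Filter.mem_of_superset (init_mem h) ?_
  intro z hz b
  constructor
  · intro hb
    by_contra hc
    rcases lt_or_eq_of_le (not_lt.1 hc) with h1 | h1
    · refine kap_notMem z (hz (inj b) hb ?_ _ (inj_lt_inj.2 h1))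
      rw [ov_inj_eq]; exact ov_lt b
    · exact kap_notMem z (h1 ▸ hb)
  · exact inj_mem_of_lt_kap z b

theorem meas5 (h : IsNormalFine k (Order.succ k) U) : Meas5 U := by
  intro b
  refine Filter.mem_of_superset (Filter.inter_mem (meas4 h) (h.fine (inj b))) ?_
  rintro z ⟨h1, h2⟩
  exact (h1 b).1 h2

theorem exists_idx (b0 : Below k) (D : Below (Order.succ k)) :
    ∃ i : Below (Order.succ k) → Below k, InjOn i (Iio D) := by
  have h1 : #(Iio D) ≤ #(Below k) := by
    rw [mk_below]
    exact Order.lt_succ_iff.1 (mk_Iio_lt' (ov_lt D))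
  obtain ⟨f⟩ := h1
  classical
  refine ⟨fun a => if h : a ∈ Iio D then f ⟨a, h⟩ else b0, ?_⟩
  intro a ha b hb hab
  simp only at hab
  rw [dif_pos ha, dif_pos hb] at hab
  exact Subtype.ext_iff.1 (f.injective hab)

theorem nonempty_below (h : ℵ₀ < k) : Nonempty (Below k) := by
  rw [← mk_ne_zero_iff, mk_below]
  exact (aleph0_pos.trans h).ne'

theorem meas6 (h : IsNormalFine k (Order.succ k) U) : Meas6 U := by
  classical
  obtain ⟨b0⟩ := nonempty_below h.uncountable
  choose i hi using exists_idx (k := k) b0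
  let F1 : List (Below (Order.succ k)) → Below (Order.succ k) := fun t =>
    match t with
    | [D, c] => if h : ∃ a < D, inj (i D a) = c then h.choose else D
    | _ => inj b0
  let F2 : List (Below (Order.succ k)) → Below (Order.succ k) := fun t =>
    match t with
    | [D, a] => inj (i D a)
    | _ => inj b0
  refine ⟨_, Filter.inter_mem (Filter.inter_mem (closed_mem h F1) (closed_mem h F2))
    (Filter.inter_mem (init_mem h) (meas4 h)), ?_⟩
  rintro z ⟨⟨h1, h2⟩, h3, h4⟩ z' ⟨⟨h1', h2'⟩, h3', h4'⟩ hkap D hD hD' x hx ⟨hxz, -, a, ha, hao⟩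
  refine ⟨?_, h3, ?_⟩
  · intro c hc
    have hcD : c < D := hx hc
    have hcz' := hxz hc
    have h5 : inj (i D c) ∈ z'.1 := h2' [D, c] (by
      intro e he
      rcases List.mem_pair.1 he with rfl | rfl
      · exact hD'
      · exact hcz')
    have h6 : inj (i D c) ∈ z.1 := by
      rw [h4, hkap, ← h4']; exact h5
    have h7 : F1 [D, inj (i D c)] ∈ z.1 := h1 [D, inj (i D c)] (by
      intro e he
      rcases List.mem_pair.1 he with rfl | rfl
      · exact hD
      · exact h6)
    have h8 : ∃ a < D, inj (i D a) = inj (i D c) := ⟨c, hcD, rfl⟩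
    have h9 : F1 [D, inj (i D c)] = h8.choose := dif_pos h8
    have h10 : h8.choose = c :=
      hi D h8.choose_spec.1 hcD (inj_injective h8.choose_spec.2)
    rw [h9, h10] at h7
    exact h7
  · have h5 : ov a < k.ord := by rw [hao]; exact otp_lt x.2
    obtain ⟨b, rfl⟩ := exists_inj h5
    refine ⟨inj b, ?_, hao⟩
    rw [h4, hkap, ← h4']; exact ha

end

/-- Module MEAS. -/
theorem MEAS : MEAS_Stmt.{u} := by
  intro k U _ h
  exact ⟨prec_mem (Order.le_succ k) h, closed_mem h, closed_prec_mem h, meas4 h, meas5 h, meas6 h,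
    diag_list_mem h⟩

end Pool.Agent.PQ54
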