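import Pool.Agent.PQ54.Anti
import Pool.Agent.PQ54.Force
import Pool.Agent.PQ54.Meas

/-!
The assembly.
-/

set_option autoImplicit false

universe u

open Cardinal Set

namespace Pool.Agent.PQ54

/-- The negative answer, from the modules. -/
theorem neg_of (hcard : CARD_Stmt.{u}) (hrho : RHO_Stmt.{u}) (hcc : CC_Stmt.{u})
    (hvg : VG_Stmt.{u}) (k : Cardinal.{u}) (h2k : 2 ^ k = Order.succ k)
    (U : Ultrafilter (PK k (Order.succ k))) (hU : IsNormalFine k (Order.succ k) U) :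
    ∃ Q : Set (RO (Cond (Prec (κ := k) (l := Order.succ k)) U)),
      IsCompleteSubalgebra Q ∧ ¬ QuotientCC Q univ (Order.succ (Order.succ k)) := by
  have hk : ℵ₀ ≤ k := hU.uncountable.le
  have hk1 : ℵ₀ ≤ Order.succ k := hk.trans (Order.le_succ k)
  have hM : Meas U := MEAS k U h2k hU
  have hA : Abs Prec U := abs_prec hU hM
  obtain ⟨R⟩ := hrho k U h2k hU hM
  obtain ⟨hv, hT, hG⟩ := TWIN k U hM hA R
  obtain ⟨Q, hQ, hval, hQT⟩ := Force.main _ _ Prec U R.vis R.Twin hA hv hT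
  obtain ⟨p, q, hpq, hanti⟩ := Anti.main hcard k U h2k hU hM hA R hG
  refine ⟨Q, hQ, hvg _ _ (isRegular_succ hk1) ?_ Q hQ p q (fun i => hQT _ _ (hpq i))
    (hanti Q hQ hval)⟩
  refine hcc _ Prec U _ ?_
  have hP : Infinite (PK k (Order.succ k)) := by
    refine Infinite.of_injective (fun n : ℕ => (⟨(fun m : ℕ => (Ordinal.ToType.mk ⟨(m : Ordinal.{u}),
      ?_⟩ : Below (Order.succ k))) '' {n}, ?_⟩ : PK k (Order.succ k))) ?_
    · rw [mem_Iio, lt_ord]
      have h : ((m : Ordinal.{u})).card = (m : Cardinal.{u}) := by simp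
      rw [h]
      exact natCast_lt_aleph0.trans_le hk1
    · rw [image_singleton, mk_singleton]
      exact one_lt_aleph0.trans_le hk
    · intro n m h
      have h1 := congrArg Subtype.val h
      simp only [image_singleton, singleton_eq_singleton_iff, EmbeddingLike.apply_eq_iff_eq,
        Subtype.mk.injEq, Nat.cast_inj] at h1
      exact h1
  rw [mk_list_eq_mk]
  exact lt_of_le_of_lt (hcard k hk h2k).1 (Order.lt_succ _)

theorem final_of (hcard : CARD_Stmt.{u}) (hrho : RHO_Stmt.{u}) (hcc : CC_Stmt.{u})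
    (hvg : VG_Stmt.{u}) (hvh : VH_Stmt.{u}) (hgch : GCHCARD_Stmt.{u}) : FINAL_Stmt.{u} := by
  intro hG
  refine ⟨?_, ?_⟩
  · intro k l hkl hl U hU Q hQ
    refine hvh _ _ ?_ Q hQ
    exact hcc _ Prec U _ (lt_of_le_of_lt (hgch hG k l hU.uncountable hkl hl) (Order.lt_succ l))
  · intro k U hU
    exact neg_of hcard hrho hcc hvg k (hG k hU.uncountable.le) U hU

end Pool.Agent.PQ54
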