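import Pool.Agent.PQ54.Meas

/-!
Modules PHI and GCHCARD.
-/

set_option autoImplicit false

universe u

open Cardinal Set

namespace Pool.Agent.PQ54

open MeasAux

namespace PhiAux

theorem exists_bound {l : Cardinal.{u}} (hl : l.IsRegular) {ι : Type u} (hι : #ι < l)
    (g : ι → Below l) : ∃ s : Below l, ∀ i, g i < s := by
  by_contra hc
  push Not at hc
  have h1 : (⋃ i, Iic (g i)) = (Set.univ : Set (Below l)) := by
    rw [eq_univ_iff_forall]
    intro s
    obtain ⟨i, hi⟩ := hc s
    exact mem_iUnion.2 ⟨i, hi⟩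
  have h2 : #(⋃ i, Iic (g i) : Set (Below l)) < l := by
    refine (mk_iUnion_le_sum_mk).trans_lt (sum_lt_of_isRegular hl hι ?_)
    intro i
    have h4 : (Iic (g i) : Set (Below l)) = insert (g i) (Iio (g i)) := by
      ext c; simp [le_iff_eq_or_lt]
    rw [h4]
    refine (mk_insert_le).trans_lt ?_
    exact add_lt_of_lt hl.aleph0_le (mk_Iio_lt' (ov_lt (g i)))
      (one_lt_aleph0.trans_le hl.aleph0_le)
  rw [h1, mk_univ, mk_below] at h2
  exact lt_irrefl _ h2

/-- The recursive choice. -/
noncomputable def pick {l : Cardinal.{u}} (X : Below l → Set (Below l))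
    (hb : ∀ i (η : Iio i → Below l), ∃ b ∈ X i, ∀ j, η j < b) : Below l → Below l :=
  WellFounded.fix (wellFounded_lt : WellFounded (fun a b : Below l => a < b))
    (fun i η => (hb i (fun j => η j.1 j.2)).choose)

theorem pick_spec {l : Cardinal.{u}} (X : Below l → Set (Below l))
    (hb : ∀ i (η : Iio i → Below l), ∃ b ∈ X i, ∀ j, η j < b) (i : Below l) :
    pick X hb i ∈ X i ∧ ∀ j < i, pick X hb j < pick X hb i := by
  have h1 : pick X hb i = (hb i (fun j => pick X hb j.1)).choose :=
    WellFounded.fix_eq _ _ i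
  rw [h1]
  exact ⟨(hb i (fun j => pick X hb j.1)).choose_spec.1, fun j hj =>
    (hb i (fun j => pick X hb j.1)).choose_spec.2 ⟨j, hj⟩⟩

end PhiAux

open PhiAux

/-- Module PHI. -/
theorem PHI : PHI_Stmt.{u} := by
  intro k A T X hk hA hT hne hX
  obtain ⟨a0⟩ := hne
  by_cases hTn : Nonempty T
  swap
  · exact ⟨fun _ => a0, fun a t => (hTn ⟨t⟩).elim⟩
  obtain ⟨t0⟩ := hTn
  have hreg : (Order.succ k).IsRegular := isRegular_succ hk
  have hcard : #(A × T) ≤ #(Below (Order.succ k)) := by
    rw [mk_below, mk_prod, lift_id, lift_id]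
    exact (mul_le_mul' hA hT).trans (mul_eq_self (hk.trans (Order.le_succ k))).le
  obtain ⟨g⟩ := hcard
  have : Nonempty (A × T) := ⟨(a0, t0)⟩
  let seq : Below (Order.succ k) → A × T := Function.invFun g
  have hseq : Function.Surjective seq := Function.invFun_surjective g.injective
  have hb : ∀ i (η : Iio i → Below (Order.succ k)), ∃ b ∈ X (seq i).2, ∀ j, η j < b := by
    intro i η
    obtain ⟨s, hs⟩ := exists_bound hreg (mk_Iio_lt' (ov_lt i)) η
    obtain ⟨b, hb, hb'⟩ := hX (seq i).2 s
    exact ⟨b, hb, fun j => (hs j).trans hb'⟩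
  let P := pick (fun i => X (seq i).2) hb
  have hP := pick_spec (fun i => X (seq i).2) hb
  have hinj : Function.Injective P := by
    intro i j hij
    rcases lt_trichotomy i j with h | h | h
    · exact absurd hij ((hP j).2 i h).ne
    · exact h
    · exact absurd hij ((hP i).2 j h).ne'
  classical
  refine ⟨fun η => if h : ∃ i, P i = η then (seq h.choose).1 else a0, ?_⟩
  intro a t
  obtain ⟨i, hi⟩ := hseq (a, t)
  refine ⟨P i, ?_, ?_⟩
  · have h := (hP i).1
    rw [hi] at h
    exact h
  · have h : ∃ j, P j = P i := ⟨i, rfl⟩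
    simp only
    rw [dif_pos h, hinj h.choose_spec, hi]

/-- Module GCHCARD. -/
theorem GCHCARD : GCHCARD_Stmt.{u} := by
  intro hG k l _ hkl hl
  have h1 : ∀ x : PK k l, ∃ s : Below l, x.1 ⊆ Iio s := by
    intro x
    obtain ⟨s, hs⟩ := exists_bound hl (x.2.trans hkl) (fun a : x.1 => a.1)
    exact ⟨s, fun a ha => hs ⟨a, ha⟩⟩
  choose s hs using h1
  have h2 : ∀ a : Below l, #(Set (Iio a)) ≤ l := by
    intro a
    rw [mk_set]
    have h3 : #(Iio a) < l := mk_Iio_lt' (ov_lt a)
    rcases lt_or_ge (#(Iio a)) ℵ₀ with h4 | h4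
    · exact (power_lt_aleph0 (natCast_lt_aleph0 (n := 2)) h4).le.trans hl.aleph0_le
    · rw [hG _ h4]
      exact Order.succ_le_of_lt h3
  have h3 : #(PK k l) ≤ l := by
    have h4 : #(PK k l) ≤ #(Σ a : Below l, Set (Iio a)) :=
      mk_le_of_injective (f := fun x => (⟨s x, {b | b.1 ∈ x.1}⟩ : Σ a : Below l, Set (Iio a)))
        (by
          intro x y hxy
          simp only [Sigma.mk.injEq] at hxy
          obtain ⟨h5, h6⟩ := hxy
          apply Subtype.ext
          have key : ∀ (a b : Below l) (u v : Set (Below l)), a = b →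
              HEq ({c : Iio a | c.1 ∈ u} : Set (Iio a)) ({c : Iio b | c.1 ∈ v} : Set (Iio b)) →
              u ⊆ Iio a → v ⊆ Iio b → u = v := by
            rintro a b u v rfl he hu hv
            rw [heq_iff_eq] at he
            ext c
            constructor
            · intro hc
              have : (⟨c, hu hc⟩ : Iio a) ∈ ({c : Iio a | c.1 ∈ u} : Set (Iio a)) := hc
              rw [he] at this
              exact this
            · intro hc
              have : (⟨c, hv hc⟩ : Iio a) ∈ ({c : Iio a | c.1 ∈ v} : Set (Iio a)) := hc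
              rw [← he] at this
              exact this
          exact key _ _ _ _ h5 h6 (hs x) (hs y))
    refine h4.trans ?_
    rw [mk_sigma]
    refine (sum_le_sum _ _ h2).trans ?_
    rw [sum_const, lift_id, lift_id, mk_below]
    exact (mul_eq_self hl.aleph0_le).le
  exact (mk_list_le_max _).trans (max_le hl.aleph0_le h3)

end Pool.Agent.PQ54
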