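import Pool.Agent.PQ54.Stmts
import Pool.Agent.PQ54.ROlib

/-!
The modules EXT and VISEQ and the abstract hypotheses for `Prec`.
-/

set_option autoImplicit false

universe u

open Cardinal Set

namespace Pool.Agent.PQ54

theorem Ext.main : EXT_Stmt.{u} := by
  intro P _ Q hQ p q h D hD
  by_contra hn
  push Not at hn
  have h1 : emb p ≤ (quotVal Q q)ᶜ := by
    rw [emb_le_compl]
    intro s hs hs2
    obtain ⟨t, ht, htD⟩ := hD s
    have h2 := hn t (ht.trans hs) htD
    have h3 : emb t ≤ quotVal Q t ⊓ quotVal Q q :=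
      le_inf (emb_le_quotVal t) ((emb_mono ht).trans hs2)
    rw [h2] at h3
    exact not_emb_le_bot t h3
  have h2 : quotVal Q p ≤ (quotVal Q q)ᶜ := quotVal_le (hQ.compl_mem _ (quotVal_mem hQ q)) h1
  exact h (disjoint_iff.1 (le_compl_iff_disjoint_right.1 h2))

section
variable {X V : Type u} {r : X → X → Prop} {U : Ultrafilter X} {vis : List X → ℕ → Option V}

theorem emb_le_val (p : Cond r U) {n : ℕ} {v : V} (h : vis p.stem n = some v) :
    emb p ≤ val (r := r) (U := U) vis n v :=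
  le_sSup ⟨p, h, rfl⟩

theorem stem_of_le {p q : Cond r U} (h : q ≤ p) : ∃ t, q.stem = p.stem ++ t := by
  obtain ⟨t, h1, _⟩ := h
  exact ⟨t, h1⟩

theorem vis_of_le (hv : Vis vis) {p q : Cond r U} (h : q ≤ p) {n : ℕ} {v : V}
    (hp : vis p.stem n = some v) : vis q.stem n = some v := by
  obtain ⟨t, h1⟩ := stem_of_le h
  rw [h1]
  exact hv.mono _ _ _ _ hp

theorem val_inf (hv : Vis vis) {n : ℕ} {v v' : V} (h : v ≠ v') :
    val (r := r) (U := U) vis n v ⊓ val vis n v' = ⊥ := by
  by_contra hne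
  obtain ⟨p, h1, h2⟩ := (inf_ne_bot_iff _ _).1 hne
  obtain ⟨s, hs, _, ⟨a, ha, rfl⟩, hsa⟩ := (emb_le_sSup _ _).1 h1 p le_rfl
  obtain ⟨s', hs', _, ⟨a', ha', rfl⟩, hsa'⟩ := (emb_le_sSup _ _).1 h2 s hs
  obtain ⟨c, hc1, hc2⟩ := compat_of_inf_ne_bot
    (ne_bot_of_emb_le (le_inf ((emb_mono hs').trans hsa) hsa'))
  have e1 := vis_of_le hv hc1 ha
  have e2 := vis_of_le hv hc2 ha'
  rw [e1] at e2
  exact h (Option.some.inj e2)

end

theorem VisEq.main : VISEQ_Stmt.{u} := by
  intro X V r U vis _ hv Q hQ hval p q h n v v' hp hq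
  by_contra hne
  apply h
  refine le_bot_iff.1 ?_
  rw [← val_inf (r := r) (U := U) hv (n := n) hne]
  exact inf_le_inf (quotVal_le (hval n v) (emb_le_val p hp)) (quotVal_le (hval n v') (emb_le_val q hq))

/-! ### `Prec` -/

section
variable {κ l : Cardinal.{u}}

theorem otp_mono {x y : Set (Below l)} (h : x ⊆ y) : otp x ≤ otp y := by
  unfold otp
  have e : (fun a b : x => a < b) ↪r (fun a b : y => a < b) :=
    { toFun := fun a => ⟨a.1, h a.2⟩
      inj' := by
        intro a b hab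
        exact Subtype.ext (congrArg (fun c : y => c.1) hab)
      map_rel_iff' := by
        intro a b
        rfl }
  exact e.ordinal_type_le

theorem Prec.trans {x y z : PK κ l} (h : Prec x y) (h' : Prec y z) : Prec x z :=
  ⟨h.1.trans h'.1, h'.2.1, by
    obtain ⟨a, ha, ha2⟩ := h.2.2
    exact ⟨a, h'.1 ha, ha2⟩⟩

end

theorem abs_prec {k : Cardinal.{u}} {U : Ultrafilter (PK k (Order.succ k))}
    (hU : IsNormalFine k (Order.succ k) U) (hM : Meas U) : Abs Prec U where
  trans := fun _ _ _ h h' => Prec.trans h h'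
  up := hM.m1
  countable := by
    intro s hs
    have h := hU.complete (ULift.{u} ℕ) (fun n => s n.down) (by
      rw [mk_uLift, mk_nat, lift_aleph0]
      exact hU.uncountable) (fun n => hs n.down)
    refine Filter.mem_of_superset h ?_
    intro z hz
    rw [mem_iInter] at hz ⊢
    intro n
    exact hz ⟨n⟩
  diag := hM.m7

end Pool.Agent.PQ54
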