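import Pool.Agent.PQ54.Defs

/-!
Statements of the modules of the proof (blueprint).
-/

set_option autoImplicit false

universe u

open Cardinal Set

namespace Pool.Agent.PQ54

/-- `κ` as an initial segment of `κ⁺`. -/
noncomputable def inj {k : Cardinal.{u}} (b : Below k) : Below (Order.succ k) :=
  Ordinal.ToType.mk ⟨ov b, mem_Iio.2 ((mem_Iio.1 (Ordinal.ToType.toOrd b).2).trans_le
    (ord_le_ord.2 (Order.le_succ k)))⟩

/-- The least element of `κ` that does not belong to `z` (it is `z ∩ κ` for almost all `z`). -/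
noncomputable def kap {k : Cardinal.{u}} (z : PK k (Order.succ k)) : Below k :=
  open Classical in
  if h : ∃ b : Below k, inj b ∉ z.1 then
    WellFounded.min (wellFounded_lt : WellFounded (fun a b : Below k => a < b))
      {b | inj b ∉ z.1} h
  else WellFounded.min (wellFounded_lt : WellFounded (fun a b : Below k => a < b)) {b | True}
    (by
      by_contra hne
      have hk : IsEmpty (Below k) := ⟨fun b => hne ⟨b, trivial⟩⟩
      have h0 : #(Below k) = 0 := mk_eq_zero_iff.2 hk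
      rw [mk_toType, card_ord] at h0
      exact absurd ((z.2 : #z.1 < k).trans_le h0.le) (not_lt_bot (a := #z.1)))

/-! ### MEAS: the toolkit of the measure -/

section
variable {k : Cardinal.{u}} (U : Ultrafilter (PK k (Order.succ k)))

/-- MEAS1 -/
def Meas1 : Prop := ∀ x : PK k (Order.succ k), {z | Prec x z} ∈ U

/-- MEAS2: closure under finitary functions -/
def Meas2 : Prop := ∀ F : List (Below (Order.succ k)) → Below (Order.succ k),
  {z : PK k (Order.succ k) | ∀ l : List (Below (Order.succ k)), (∀ a ∈ l, a ∈ z.1) → F l ∈ z.1} ∈ U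

/-- MEAS3: closure under functions of the elements of `P_κ(λ)` below `z` -/
def Meas3 : Prop := ∀ G : PK k (Order.succ k) → Below (Order.succ k),
  {z : PK k (Order.succ k) | ∀ x, Prec x z → G x ∈ z.1} ∈ U

/-- MEAS4 -/
def Meas4 : Prop := {z : PK k (Order.succ k) | ∀ b : Below k, inj b ∈ z.1 ↔ b < kap z} ∈ U

/-- MEAS5 -/
def Meas5 : Prop := ∀ b : Below k, {z : PK k (Order.succ k) | b < kap z} ∈ U

/-- MEAS6 -/
def Meas6 : Prop := ∃ C ∈ U, ∀ z ∈ C, ∀ z' ∈ C, kap z = kap z' → ∀ D ∈ z.1, D ∈ z'.1 →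
  ∀ x : PK k (Order.succ k), x.1 ⊆ Iio D → Prec x z' → Prec x z

/-- MEAS7: diagonal intersections over the finite sequences -/
def Meas7 : Prop := ∀ A : List (PK k (Order.succ k)) → Set (PK k (Order.succ k)), (∀ t, A t ∈ U) →
  {z | ∀ t : List (PK k (Order.succ k)), (∀ x ∈ t, Prec x z) → z ∈ A t} ∈ U

/-- All of the toolkit. -/
structure Meas : Prop where
  m1 : Meas1 U
  m2 : Meas2 U
  m3 : Meas3 U
  m4 : Meas4 U
  m5 : Meas5 U
  m6 : Meas6 U
  m7 : Meas7 U

end

/-- Module MEAS. (`2 ^ κ = κ⁺` is only used for `#(PK κ κ⁺) ≤ κ⁺` in MEAS7.) -/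
def MEAS_Stmt : Prop := ∀ (k : Cardinal.{u}) (U : Ultrafilter (PK k (Order.succ k))),
  2 ^ k = Order.succ k → IsNormalFine k (Order.succ k) U → Meas U

/-! ### RHO: the hidden function -/

/-- Module EVD: `κ⁺` eventually different functions. -/
def EVD_Stmt : Prop := ∀ k : Cardinal.{u}, ℵ₀ ≤ k →
  ∃ (f : Below (Order.succ k) → Below k → Below k)
    (d : Below (Order.succ k) → Below (Order.succ k) → Below k),
    ∀ r r', r ≠ r' → ∀ b, d r r' ≤ b → f r b ≠ f r' b

/-- Module PHI: a function all of whose fibres meet all the sets of a small family. -/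
def PHI_Stmt : Prop := ∀ (k : Cardinal.{u}) (A T : Type u) (X : T → Set (Below (Order.succ k))),
  ℵ₀ ≤ k → #A ≤ Order.succ k → #T ≤ Order.succ k → Nonempty A →
  (∀ t, ∀ a : Below (Order.succ k), ∃ b ∈ X t, a < b) →
  ∃ phi : Below (Order.succ k) → A, ∀ a t, ∃ η ∈ X t, phi η = a

/-- Module CARD: the cardinal arithmetic. -/
def CARD_Stmt : Prop := ∀ k : Cardinal.{u}, ℵ₀ ≤ k → 2 ^ k = Order.succ k →
  #(PK k (Order.succ k)) ≤ Order.succ k ∧
  #(Below k → Set (Below k × Below k)) ≤ Order.succ k ∧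
  ∀ D : Below (Order.succ k), #(Iio D → Bool) ≤ Order.succ k

/-- The data of the hidden function: `f` eventually different functions, `rho` injective, `T` an
ultrafilter on `κ × κ` such that `rho` is generic for the sequences of sets in `T`. -/
structure RhoData {k : Cardinal.{u}} (U : Ultrafilter (PK k (Order.succ k))) where
  f : Below (Order.succ k) → Below k → Below k
  d : Below (Order.succ k) → Below (Order.succ k) → Below k
  rho : PK k (Order.succ k) → Below (Order.succ k)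
  T : Set (Set (Below k × Below k))
  f_ne : ∀ r r', r ≠ r' → ∀ b, d r r' ≤ b → f r b ≠ f r' b
  rho_inj : Function.Injective rho
  T_inter : ∀ S ∈ T, ∀ S' ∈ T, S ∩ S' ∈ T
  T_empty : ∅ ∉ T
  T_ultra : ∀ S, S ∈ T ∨ Sᶜ ∈ T
  req : ∀ S : Below k → Set (Below k × Below k), (∀ b, S b ∈ T) →
    {z : PK k (Order.succ k) | {w : PK k (Order.succ k) |
      (kap w, f (rho z) (kap w)) ∈ S (kap z)} ∈ U} ∈ U

/-- Module RHO. -/
def RHO_Stmt : Prop := ∀ (k : Cardinal.{u}) (U : Ultrafilter (PK k (Order.succ k))),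
  2 ^ k = Order.succ k → IsNormalFine k (Order.succ k) U → Meas U → Nonempty (RhoData U)

/-! ### FORCE: twins cannot be separated (abstract) -/

section
variable {X : Type u} {r : X → X → Prop} {U : Ultrafilter X}

/-- The value `[the visible datum number n is v]`. -/
noncomputable def val {V : Type u} (vis : List X → ℕ → Option V) (n : ℕ) (v : V) :
    RO (Cond r U) :=
  sSup {b | ∃ p : Cond r U, vis p.stem n = some v ∧ b = emb p}

/-- The abstract hypotheses on `r` and `U` needed for the forcing. -/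
structure Abs (r : X → X → Prop) (U : Ultrafilter X) : Prop where
  trans : ∀ x y z, r x y → r y z → r x z
  up : ∀ x, {z | r x z} ∈ U
  countable : ∀ s : ℕ → Set X, (∀ n, s n ∈ U) → (⋂ n, s n) ∈ U
  diag : ∀ A : List X → Set X, (∀ t, A t ∈ U) → {z | ∀ t : List X, (∀ x ∈ t, r x z) → z ∈ A t} ∈ U

/-- The hypotheses on the visible data. -/
structure Vis {V : Type u} (vis : List X → ℕ → Option V) : Prop where
  mono : ∀ t s n v, vis t n = some v → vis (t ++ s) n = some v
  total : ∀ t n, n + 2 ≤ t.length → ∃ v, vis t n = some v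

/-- A twin relation: symmetric, the same visible data, and one step extensions for arbitrary
smaller measure one sets. -/
structure IsTwin {V : Type u} (vis : List X → ℕ → Option V)
    (T : Cond r U → Cond r U → Prop) : Prop where
  symm : ∀ p q, T p q → T q p
  vis_eq : ∀ p q, T p q → ∀ n, vis p.stem n = vis q.stem n
  ext : ∀ p q, T p q → ∀ C ∈ U, ∀ A ∈ U, ∃ p' q' : Cond r U, T p' q' ∧
    p' ≤ p ∧ q' ≤ q ∧ (∃ y, p'.stem = p.stem ++ [y]) ∧ (∃ y, q'.stem = q.stem ++ [y]) ∧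
    p'.meas ⊆ C ∧ q'.meas ⊆ A

end

/-- Module FORCE. -/
def FORCE_Stmt : Prop := ∀ (X V : Type u) (r : X → X → Prop) (U : Ultrafilter X)
  (vis : List X → ℕ → Option V) (T : Cond r U → Cond r U → Prop), Abs r U → Vis vis →
  IsTwin vis T → ∃ Q : Set (RO (Cond r U)), IsCompleteSubalgebra Q ∧ (∀ n v, val vis n v ∈ Q) ∧
    ∀ p q, T p q → quotVal Q p ⊓ quotVal Q q ≠ ⊥

/-- Module EXT: extending two conditions with compatible traces on `Q`. -/
def EXT_Stmt : Prop := ∀ (P : Type u) [Preorder P] (Q : Set (RO P)), IsCompleteSubalgebra Q →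
  ∀ p q : P, quotVal Q p ⊓ quotVal Q q ≠ ⊥ → ∀ D : Set P, (∀ p, ∃ p' ≤ p, p' ∈ D) →
  ∃ p' ≤ p, p' ∈ D ∧ quotVal Q p' ⊓ quotVal Q q ≠ ⊥

/-- Module VISEQ: conditions with compatible traces on `Q` have the same visible data. -/
def VISEQ_Stmt : Prop := ∀ (X V : Type u) (r : X → X → Prop) (U : Ultrafilter X)
  (vis : List X → ℕ → Option V), Abs r U → Vis vis →
  ∀ Q : Set (RO (Cond r U)), IsCompleteSubalgebra Q → (∀ n v, val vis n v ∈ Q) →
  ∀ p q, quotVal Q p ⊓ quotVal Q q ≠ ⊥ → ∀ n v v', vis p.stem n = some v →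
    vis q.stem n = some v' → v = v'

/-! ### VG: from an antichain of the product over `Q` to the quotient in `V[G]` -/

/-- Module CC: the chain condition of the completion. -/
def CC_Stmt : Prop := ∀ (X : Type u) (r : X → X → Prop) (U : Ultrafilter X) (m : Cardinal.{u}),
  #(List X) < m → ∀ c : Below m → RO (Cond r U), (∀ i, c i ≠ ⊥) →
  ∃ i j, i ≠ j ∧ c i ⊓ c j ≠ ⊥

/-- Module VG. -/
def VG_Stmt : Prop := ∀ (P : Type u) [Preorder P] (m : Cardinal.{u}), m.IsRegular →
  (∀ c : Below m → RO P, (∀ i, c i ≠ ⊥) → ∃ i j, i ≠ j ∧ c i ⊓ c j ≠ ⊥) →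
  ∀ Q : Set (RO P), IsCompleteSubalgebra Q → ∀ p q : Below m → P,
  (∀ i, quotVal Q (p i) ⊓ quotVal Q (q i) ≠ ⊥) →
  (∀ i j, i ≠ j → ∀ s, s ≤ p i → s ≤ p j → ∀ t, t ≤ q i → t ≤ q j →
    quotVal Q s ⊓ quotVal Q t = ⊥) →
  ¬ QuotientCC Q univ m

/-- Module VH: the quotient in `V[H]`. -/
def VH_Stmt : Prop := ∀ (P : Type u) [Preorder P] (m : Cardinal.{u}),
  (∀ c : Below m → RO P, (∀ i, c i ≠ ⊥) → ∃ i j, i ≠ j ∧ c i ⊓ c j ≠ ⊥) →
  ∀ Q : Set (RO P), IsCompleteSubalgebra Q → QuotientCC Q Q m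

/-- Module GCHCARD. -/
def GCHCARD_Stmt : Prop := GCH.{u} → ∀ k l : Cardinal.{u}, ℵ₀ < k → k < l → l.IsRegular →
  #(List (PK k l)) ≤ l

/-! ### TWIN and ANTI: the concrete part -/

section
variable {k : Cardinal.{u}} {U : Ultrafilter (PK k (Order.succ k))} (R : RhoData U)

/-- The visible data of a stem: number `n` is `(κ_{x_{n+1}}, f_{ρ(x_n)}(κ_{x_{n+1}}))`. -/
noncomputable def RhoData.vis (t : List (PK k (Order.succ k))) (n : ℕ) :
    Option (Below k × Below k) :=
  match t[n]?, t[n + 1]? with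
  | some x, some y => some (kap y, R.f (R.rho x) (kap y))
  | _, _ => none

/-- `b` is good for `C` and `x`. -/
def RhoData.Good (C : Set (PK k (Order.succ k))) (x : PK k (Order.succ k)) (b : Below k) : Prop :=
  ∀ S ∈ R.T, ∃ y ∈ C, Prec x y ∧ kap y = b ∧
    {w : PK k (Order.succ k) | (kap w, R.f (R.rho y) (kap w)) ∈ S} ∈ U

/-- The twin relation. -/
def RhoData.Twin (p q : Cond (Prec (κ := k) (l := Order.succ k)) U) : Prop :=
  (∀ n, R.vis p.stem n = R.vis q.stem n) ∧
  ∃ x ∈ p.stem.getLast?, ∃ x' ∈ q.stem.getLast?, ∃ b, R.Good p.meas x b ∧ R.Good q.meas x' b ∧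
    R.f (R.rho x) b = R.f (R.rho x') b

end

/-- Module TWIN. -/
def TWIN_Stmt : Prop := ∀ (k : Cardinal.{u}) (U : Ultrafilter (PK k (Order.succ k))), Meas U →
  Abs Prec U → ∀ R : RhoData U, Vis R.vis ∧ IsTwin R.vis R.Twin ∧
    ∀ C ∈ U, ∀ x, ∃ b, R.Good C x b

/-- Module ANTI. -/
def ANTI_Stmt : Prop := ∀ (k : Cardinal.{u}) (U : Ultrafilter (PK k (Order.succ k))),
  2 ^ k = Order.succ k → IsNormalFine k (Order.succ k) U → Meas U → Abs Prec U →
  ∀ R : RhoData U, (∀ C ∈ U, ∀ x, ∃ b, R.Good C x b) →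
  ∃ p q : Below (Order.succ (Order.succ k)) → Cond (Prec (κ := k) (l := Order.succ k)) U,
    (∀ i, R.Twin (p i) (q i)) ∧
    ∀ Q : Set (RO (Cond (Prec (κ := k) (l := Order.succ k)) U)), IsCompleteSubalgebra Q →
      (∀ n v, val R.vis n v ∈ Q) →
      ∀ i j, i ≠ j → ∀ s, s ≤ p i → s ≤ p j → ∀ t, t ≤ q i → t ≤ q j →
        quotVal Q s ⊓ quotVal Q t = ⊥

/-- The final statement. -/
def FINAL_Stmt : Prop := GCH.{u} →
  (∀ (k l : Cardinal.{u}), k < l → l.IsRegular → ∀ U : Ultrafilter (PK k l),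
    IsNormalFine k l U → ∀ Q : Set (RO (Cond (Prec (κ := k) (l := l)) U)),
    IsCompleteSubalgebra Q → QuotientCC Q Q (Order.succ l)) ∧
  ∀ (k : Cardinal.{u}) (U : Ultrafilter (PK k (Order.succ k))),
    IsNormalFine k (Order.succ k) U →
    ∃ Q : Set (RO (Cond (Prec (κ := k) (l := Order.succ k)) U)),
      IsCompleteSubalgebra Q ∧ ¬ QuotientCC Q univ (Order.succ (Order.succ k))

end Pool.Agent.PQ54
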